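import Pool.Agent.P.MP_d3a052_pr.Gauss1

/-! The analytic core: Laplace asymptotics for the wedge probability. -/

open MeasureTheory ProbabilityTheory Filter Topology Set
open scoped ENNReal NNReal

namespace Pool.Agent.P.MP_d3a052_pr

variable {n : ℕ}

/-- The event `0 ≤ s` and `s c_i ≤ τ y_i` for all `i`. -/
def evB (τ : ℝ) (c : Fin n → ℝ) : Set (ℝ × (Fin n → ℝ)) :=
  {q | 0 ≤ q.1 ∧ ∀ i, q.1 * c i ≤ τ * q.2 i}

lemma measurableSet_evB_joint :
    MeasurableSet {r : (ℝ × (Fin n → ℝ)) × (ℝ × (Fin n → ℝ)) | r.2 ∈ evB r.1.1 r.1.2} := by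
  have : {r : (ℝ × (Fin n → ℝ)) × (ℝ × (Fin n → ℝ)) | r.2 ∈ evB r.1.1 r.1.2} =
      {r | 0 ≤ r.2.1} ∩ ⋂ i, {r | r.2.1 * r.1.2 i ≤ r.1.1 * r.2.2 i} := by
    ext r; simp [evB]
  rw [this]
  refine (measurableSet_le (by fun_prop) (by fun_prop)).inter
    (MeasurableSet.iInter fun i => measurableSet_le (by fun_prop) (by fun_prop))

lemma measurableSet_evB (τ : ℝ) (c : Fin n → ℝ) : MeasurableSet (evB τ c) :=
  measurable_prodMk_left (x := (τ, c)) measurableSet_evB_joint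

/-- Probability of the event. -/
noncomputable def bet (lam : Measure (Fin n → ℝ)) (τ : ℝ) (c : Fin n → ℝ) : ℝ :=
  (g1.prod lam).real (evB τ c)

lemma measurable_bet (lam : Measure (Fin n → ℝ)) [IsProbabilityMeasure lam] :
    Measurable fun p : ℝ × (Fin n → ℝ) => bet lam p.1 p.2 :=
  (measurable_measure_prodMk_left (ν := g1.prod lam) measurableSet_evB_joint).ennreal_toReal

lemma bet_nonneg (lam : Measure (Fin n → ℝ)) (τ : ℝ) (c : Fin n → ℝ) : 0 ≤ bet lam τ c :=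
  measureReal_nonneg

lemma lam_eval (lam : Measure (Fin n → ℝ)) (i : Fin n) (h : lam.map (fun y => y i) = g1)
    {s : Set ℝ} (hs : MeasurableSet s) : lam.real {y | y i ∈ s} = g1.real s := by
  rw [← h, measureReal_def, measureReal_def, Measure.map_apply (by fun_prop) hs]
  rfl

lemma bet_bad (lam : Measure (Fin n → ℝ)) [IsProbabilityMeasure lam] (j : Fin n)
    (h : lam.map (fun y => y j) = g1) {τ : ℝ} (hτ : 0 < τ) {c : Fin n → ℝ} (hc : 0 ≤ c j) :
    bet lam τ c ≤ 1 / 4 := by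
  have hsub : evB τ c ⊆ Ici 0 ×ˢ {y | y j ∈ Ici 0} := by
    rintro ⟨s, y⟩ ⟨h1, h2⟩
    refine ⟨h1, ?_⟩
    have := h2 j
    have h3 : 0 ≤ τ * y j := le_trans (mul_nonneg h1 hc) this
    exact nonneg_of_mul_nonneg_right h3 hτ
  calc bet lam τ c ≤ (g1.prod lam).real (Ici 0 ×ˢ {y | y j ∈ Ici 0}) := measureReal_mono hsub
    _ = g1.real (Ici 0) * lam.real {y | y j ∈ Ici 0} := measureReal_prod_prod _ _
    _ = 1 / 4 := by rw [lam_eval lam j h measurableSet_Ici, g1_Ici_zero]; norm_num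

/-- The constant in the wedge bound. -/
noncomputable def kap : ℝ := 2 * ph 1 * g1.real (Iic (-1))

lemma kap_pos : 0 < kap := by
  have := ph_pos 1
  have := g1_Iic_neg_one_pos
  unfold kap; positivity

lemma bet_wedge (lam : Measure (Fin n → ℝ)) [IsProbabilityMeasure lam] (j : Fin n)
    (h : lam.map (fun y => y j) = g1) {τ : ℝ} (hτ : 0 < τ) (c : Fin n → ℝ) :
    2 * bet lam τ c ≤ 1 - kap * (τ / (τ + |c j|)) := by
  set m := τ / (τ + |c j|) with hm
  have hden : 0 < τ + |c j| := by positivity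
  have hm0 : 0 ≤ m := by positivity
  have hm1 : m ≤ 1 := by rw [hm, div_le_one hden]; linarith [abs_nonneg (c j)]
  have hmc : m * |c j| < τ := by
    rw [hm, div_mul_eq_mul_div, div_lt_iff₀ hden]; nlinarith
  set W : Set (ℝ × (Fin n → ℝ)) := Ico 0 m ×ˢ {y | y j ∈ Iic (-1)} with hW
  have hWm : MeasurableSet W :=
    measurableSet_Ico.prod (measurable_pi_apply j measurableSet_Iic)
  have hd : Disjoint (evB τ c) W := by
    rw [Set.disjoint_left]
    rintro ⟨s, y⟩ ⟨h1, h2⟩ ⟨⟨_, h3⟩, h4⟩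
    have h5 := h2 j
    simp only [mem_ofPred_eq, mem_Iic] at h1 h3 h4 h5
    have h6 : -(s * |c j|) ≤ s * c j := by
      have := neg_abs_le (c j); nlinarith
    have h7 : s * |c j| ≤ m * |c j| := by gcongr
    nlinarith
  have hsub : evB τ c ∪ W ⊆ Ici 0 ×ˢ univ := by
    rintro ⟨s, y⟩ (⟨h1, _⟩ | ⟨⟨h1, _⟩, _⟩)
    · exact ⟨h1, trivial⟩
    · exact ⟨h1, trivial⟩
  have h1 := measureReal_union (μ := g1.prod lam) hd hWm
  have h2 : (g1.prod lam).real (evB τ c ∪ W) ≤ 1 / 2 := by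
    calc _ ≤ (g1.prod lam).real (Ici 0 ×ˢ univ) := measureReal_mono hsub
      _ = 1 / 2 := by rw [measureReal_prod_prod, g1_Ici_zero]; simp
  have h3 : (g1.prod lam).real W = Hm m * g1.real (Iic (-1)) := by
    rw [hW, measureReal_prod_prod, lam_eval lam j h measurableSet_Iic]; rfl
  have h4 : m * ph 1 ≤ Hm m := by
    refine le_trans ?_ (le_Hm hm0)
    gcongr
    exact ph_anti (by nlinarith)
  have h5 := g1_Iic_neg_one_pos
  have h6 : m * ph 1 * g1.real (Iic (-1)) ≤ Hm m * g1.real (Iic (-1)) := by gcongr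
  unfold bet kap
  nlinarith

/-- The function `max (0, max_i y_i / c_i)`. -/
noncomputable def Mx (c y : Fin n → ℝ) : ℝ := ‖fun i => max 0 (y i / c i)‖

lemma Mx_nonneg (c y : Fin n → ℝ) : 0 ≤ Mx c y := norm_nonneg _

lemma continuous_Mx (c : Fin n → ℝ) : Continuous (Mx c) := by
  unfold Mx; fun_prop

lemma integrable_Mx (lam : Measure (Fin n → ℝ)) [IsProbabilityMeasure lam]
    (h : ∀ i, lam.map (fun y => y i) = g1) (c : Fin n → ℝ) : Integrable (Mx c) lam := by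
  have h1 : ∀ i, Integrable (fun y : Fin n → ℝ => y i) lam := by
    intro i
    have : Integrable id (lam.map (fun y => y i)) := by
      rw [h i]; exact (memLp_id_gaussianReal 1).integrable le_rfl
    exact (integrable_map_measure this.1 (measurable_pi_apply i).aemeasurable).1 this
  have h2 : Integrable (fun y : Fin n → ℝ => fun i => max 0 (y i / c i)) lam := by
    rw [integrable_pi_iff]
    intro i
    exact (integrable_zero _ _ _).sup ((h1 i).div_const (c i))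
  exact h2.norm

lemma bet_good (lam : Measure (Fin n → ℝ)) [IsProbabilityMeasure lam] {τ : ℝ} (hτ : 0 < τ)
    {c : Fin n → ℝ} (hc : ∀ i, c i < 0) :
    bet lam τ c = 1 / 2 - ∫ y, Hm (τ * Mx c y) ∂lam := by
  have hset : ∀ y, (fun s => (s, y)) ⁻¹' evB τ c = Ici (τ * Mx c y) := by
    intro y
    ext s
    simp only [evB, mem_preimage, mem_ofPred_eq, mem_Ici]
    constructor
    · rintro ⟨h1, h2⟩
      rw [← le_div_iff₀' hτ, Mx, pi_norm_le_iff_of_nonneg (div_nonneg h1 hτ.le)]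
      intro i
      rw [Real.norm_of_nonneg (le_max_left _ _), max_le_iff]
      refine ⟨div_nonneg h1 hτ.le, ?_⟩
      rw [div_le_iff_of_neg (hc i), div_mul_eq_mul_div, div_le_iff₀ hτ]
      linarith [h2 i]
    · intro h1
      have h0 : 0 ≤ s := le_trans (mul_nonneg hτ.le (Mx_nonneg c y)) h1
      refine ⟨h0, fun i => ?_⟩
      rw [← le_div_iff₀' hτ, Mx, pi_norm_le_iff_of_nonneg (div_nonneg h0 hτ.le)] at h1
      have h2 := h1 i
      rw [Real.norm_of_nonneg (le_max_left _ _), max_le_iff, div_le_iff_of_neg (hc i),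
        div_mul_eq_mul_div, div_le_iff₀ hτ] at h2
      linarith [h2.2]
  have hmeas : Measurable fun y => Hm (τ * Mx c y) :=
    measurable_Hm.comp ((continuous_Mx c).measurable.const_mul τ)
  have hint : Integrable (fun y => Hm (τ * Mx c y)) lam := by
    refine Integrable.of_bound hmeas.aestronglyMeasurable (1 / 2) (.of_forall fun y => ?_)
    rw [Real.norm_of_nonneg (Hm_nonneg _)]; exact Hm_le_half _
  rw [bet, measureReal_def, Measure.prod_apply_symm (measurableSet_evB τ c),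
    ← integral_toReal (measurable_measure_prodMk_right (measurableSet_evB τ c)).aemeasurable
      (.of_forall fun y => measure_lt_top _ _)]
  simp_rw [hset, ← measureReal_def]
  have : ∀ y, g1.real (Ici (τ * Mx c y)) = 1 / 2 - Hm (τ * Mx c y) := fun y =>
    g1_Ici (mul_nonneg hτ.le (Mx_nonneg c y))
  simp_rw [this]
  rw [integral_sub (integrable_const _) hint]
  simp

lemma tendsto_good (lam : Measure (Fin n → ℝ)) [IsProbabilityMeasure lam]
    (h : ∀ i, lam.map (fun y => y i) = g1) {σ : ℝ} (hσ : 0 < σ)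
    {c : Fin n → ℝ} (hc : ∀ i, c i < 0) :
    ∃ l : ℝ, 0 < l ∧ Tendsto (fun d : ℕ => (2 * bet lam (σ / d) c) ^ d) atTop (𝓝 l) := by
  have hI := integrable_Mx lam h c
  have h1 : Tendsto (fun d : ℕ => ∫ y, (d : ℝ) * Hm (σ * Mx c y / d) ∂lam) atTop
      (𝓝 (∫ y, σ * Mx c y * ph 0 ∂lam)) := by
    refine tendsto_integral_filter_of_dominated_convergence (fun y => σ * Mx c y * ph 0) ?_ ?_
      ((hI.const_mul σ).mul_const _) ?_
    · refine .of_forall fun d => ?_
      exact ((measurable_Hm.comp (((continuous_Mx c).measurable.const_mul σ).div_const _)).const_mul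
        _).aestronglyMeasurable
    · filter_upwards [eventually_gt_atTop 0] with d hd
      refine .of_forall fun y => ?_
      have hd' : (0 : ℝ) < d := by exact_mod_cast hd
      have h0 : 0 ≤ σ * Mx c y / d := div_nonneg (mul_nonneg hσ.le (Mx_nonneg c y)) hd'.le
      rw [Real.norm_of_nonneg (mul_nonneg hd'.le (Hm_nonneg _))]
      calc d * Hm (σ * Mx c y / d) ≤ d * (σ * Mx c y / d * ph 0) := by
            gcongr; exact Hm_le h0
        _ = σ * Mx c y * ph 0 := by field_simp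
    · exact .of_forall fun y => tendsto_Hm (mul_nonneg hσ.le (Mx_nonneg c y))
  have h2 : Tendsto (fun d : ℕ => (d : ℝ) * (-2 * ∫ y, Hm (σ / d * Mx c y) ∂lam)) atTop
      (𝓝 (-2 * ∫ y, σ * Mx c y * ph 0 ∂lam)) := by
    refine (h1.const_mul (-2)).congr fun d => ?_
    rw [integral_const_mul]
    simp_rw [div_mul_eq_mul_div]
    ring
  refine ⟨_, Real.exp_pos _, (Real.tendsto_one_add_pow_exp_of_tendsto h2).congr' ?_⟩
  filter_upwards [eventually_gt_atTop 0] with d hd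
  have hd' : (0 : ℝ) < d := by exact_mod_cast hd
  rw [bet_good lam (div_pos hσ hd') hc]
  congr 1
  ring

/-- The rescaled integrand. -/
noncomputable def Fd (lam : Measure (Fin n → ℝ)) (d : ℕ) (p : ℝ × (Fin n → ℝ)) : ℝ :=
  (2 * bet lam (|p.1| / d) p.2) ^ d * ph (p.1 / d)

lemma measurable_Fd (lam : Measure (Fin n → ℝ)) [IsProbabilityMeasure lam] (d : ℕ) :
    Measurable (Fd lam d) := by
  have h1 : Measurable fun p : ℝ × (Fin n → ℝ) => bet lam (|p.1| / d) p.2 :=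
    (measurable_bet lam).comp (f := fun p : ℝ × (Fin n → ℝ) => (|p.1| / d, p.2)) (by fun_prop)
  have h2 : Measurable fun p : ℝ × (Fin n → ℝ) => ph (p.1 / d) :=
    continuous_ph.measurable.comp (by fun_prop)
  exact ((h1.const_mul 2).pow_const d).mul h2

/-- The constant in the dominating function. -/
noncomputable def Kc : ℝ := 1 + 8 / kap ^ 2

lemma Kc_pos : 0 < Kc := by
  have := kap_pos
  unfold Kc; positivity

lemma Fd_le (lam : Measure (Fin n → ℝ)) [IsProbabilityMeasure lam] (j : Fin n)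
    (h : lam.map (fun y => y j) = g1) {d : ℕ} (hd : 0 < d) (p : ℝ × (Fin n → ℝ)) (hp : p.1 ≠ 0) :
    Fd lam d p ≤ (1 + p.1 ^ 2)⁻¹ * (Kc * (1 + p.2 j ^ 2)) := by
  obtain ⟨σ, c⟩ := p
  simp only at hp ⊢
  have hd' : (0 : ℝ) < d := by exact_mod_cast hd
  have hσ : 0 < |σ| := abs_pos.2 hp
  set τ := |σ| / d with hτ
  have hτ0 : 0 < τ := div_pos hσ hd'
  set a := |c j| with ha
  have ha0 : 0 ≤ a := abs_nonneg _
  have hk := kap_pos
  have hb0 : 0 ≤ 2 * bet lam τ c := mul_nonneg two_pos.le (bet_nonneg _ _ _)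
  have hw := bet_wedge lam j h hτ0 c
  rw [← ha] at hw
  set x := kap * (|σ| / (τ + a)) with hx
  have hx0 : 0 < x := by positivity
  have h1 : (2 * bet lam τ c) ^ d ≤ Real.exp (-x) := by
    calc (2 * bet lam τ c) ^ d ≤ (Real.exp (-(kap * (τ / (τ + a))))) ^ d := by
          gcongr
          refine hw.trans ?_
          have := Real.add_one_le_exp (-(kap * (τ / (τ + a))))
          linarith
      _ = Real.exp (-x) := by
          rw [← Real.exp_nat_mul]
          congr 1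
          rw [hx, hτ]
          field_simp
  have hph : ph (σ / d) = ph τ := by
    rw [← ph_abs, abs_div, abs_of_pos hd']
  have h2 : Real.exp (-x) * x ^ 2 ≤ 2 := by
    have h3 : x ^ 2 / 2 ≤ Real.exp x := by
      have := Real.quadratic_le_exp_of_nonneg hx0.le
      nlinarith
    have h4 : Real.exp (-x) * Real.exp x = 1 := by rw [← Real.exp_add]; simp
    have h5 := Real.exp_pos (-x)
    nlinarith
  have h3 : Real.exp (-x) ≤ 1 := Real.exp_le_one_iff.2 (by linarith)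
  have hp1 := ph_le_one τ
  have hp0 := ph_pos τ
  have hp2 := sq_mul_ph_le τ
  have he0 := Real.exp_pos (-x)
  have h4 : Real.exp (-x) * σ ^ 2 ≤ 2 * (τ + a) ^ 2 / kap ^ 2 := by
    have : x ^ 2 = kap ^ 2 * σ ^ 2 / (τ + a) ^ 2 := by
      rw [hx, mul_pow, div_pow, sq_abs]; ring
    rw [this] at h2
    have hta : 0 < (τ + a) ^ 2 := by positivity
    rw [le_div_iff₀ (by positivity)]
    have h6 : Real.exp (-x) * (kap ^ 2 * σ ^ 2 / (τ + a) ^ 2) * (τ + a) ^ 2 ≤ 2 * (τ + a) ^ 2 := by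
      gcongr
    calc Real.exp (-x) * σ ^ 2 * kap ^ 2
        = Real.exp (-x) * (kap ^ 2 * σ ^ 2 / (τ + a) ^ 2) * (τ + a) ^ 2 := by field_simp
      _ ≤ _ := h6
  have h5 : (τ + a) ^ 2 * ph τ ≤ 4 * (1 + a ^ 2) := by
    have : (τ + a) ^ 2 ≤ 2 * τ ^ 2 + 2 * a ^ 2 := by nlinarith [sq_nonneg (τ - a)]
    have h7 : a ^ 2 * ph τ ≤ a ^ 2 := by nlinarith [sq_nonneg a]
    nlinarith [sq_nonneg a]
  have h6 : Real.exp (-x) * ph τ * (1 + σ ^ 2) ≤ Kc * (1 + a ^ 2) := by
    have h7 : Real.exp (-x) * ph τ ≤ 1 := by nlinarith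
    have h8 : Real.exp (-x) * σ ^ 2 * ph τ ≤ 2 * (τ + a) ^ 2 / kap ^ 2 * ph τ := by gcongr
    have h9 : 2 * (τ + a) ^ 2 / kap ^ 2 * ph τ ≤ 8 / kap ^ 2 * (1 + a ^ 2) := by
      calc 2 * (τ + a) ^ 2 / kap ^ 2 * ph τ = 2 / kap ^ 2 * ((τ + a) ^ 2 * ph τ) := by ring
        _ ≤ 2 / kap ^ 2 * (4 * (1 + a ^ 2)) := by gcongr
        _ = _ := by ring
    unfold Kc
    nlinarith [sq_nonneg a]
  have h7 : c j ^ 2 = a ^ 2 := by rw [ha, sq_abs]
  rw [h7, Fd]
  simp only
  rw [← hτ, hph, ← div_eq_inv_mul, le_div_iff₀ (by positivity)]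
  refine le_trans ?_ h6
  gcongr

lemma Fd_nonneg (lam : Measure (Fin n → ℝ)) (d : ℕ) (p : ℝ × (Fin n → ℝ)) : 0 ≤ Fd lam d p :=
  mul_nonneg (pow_nonneg (mul_nonneg two_pos.le (bet_nonneg _ _ _)) _) (ph_pos _).le

lemma tendsto_ph_div (σ : ℝ) : Tendsto (fun d : ℕ => ph (σ / d)) atTop (𝓝 (ph 0)) :=
  (continuous_ph.tendsto 0).comp (tendsto_const_div_atTop_nhds_zero_nat σ)

lemma tendsto_Fd_good (lam : Measure (Fin n → ℝ)) [IsProbabilityMeasure lam]
    (h : ∀ i, lam.map (fun y => y i) = g1) (p : ℝ × (Fin n → ℝ)) (hp : p.1 ≠ 0)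
    (hc : ∀ i, p.2 i < 0) : ∃ l : ℝ, 0 < l ∧ Tendsto (fun d => Fd lam d p) atTop (𝓝 l) := by
  obtain ⟨l, hl, hl'⟩ := tendsto_good lam h (abs_pos.2 hp) hc
  exact ⟨l * ph 0, mul_pos hl (ph_pos 0), hl'.mul (tendsto_ph_div p.1)⟩

lemma tendsto_Fd_bad (lam : Measure (Fin n → ℝ)) [IsProbabilityMeasure lam]
    (h : ∀ i, lam.map (fun y => y i) = g1) (p : ℝ × (Fin n → ℝ)) (hp : p.1 ≠ 0)
    (hc : ¬ ∀ i, p.2 i < 0) : Tendsto (fun d => Fd lam d p) atTop (𝓝 0) := by
  push Not at hc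
  obtain ⟨j, hj⟩ := hc
  have h1 : Tendsto (fun d : ℕ => (1 / 2 : ℝ) ^ d) atTop (𝓝 0) :=
    tendsto_pow_atTop_nhds_zero_of_lt_one (by norm_num) (by norm_num)
  refine tendsto_of_tendsto_of_tendsto_of_le_of_le' tendsto_const_nhds h1
    (.of_forall fun d => Fd_nonneg lam d p) ?_
  filter_upwards [eventually_gt_atTop 0] with d hd
  have hd' : (0 : ℝ) < d := by exact_mod_cast hd
  have h2 := bet_bad lam j (h j) (div_pos (abs_pos.2 hp) hd') hj
  have h3 := bet_nonneg lam (|p.1| / d) p.2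
  have h4 := ph_le_one (p.1 / d)
  calc Fd lam d p ≤ (1 / 2) ^ d * 1 := by
        unfold Fd
        gcongr
        · exact (ph_pos _).le
        · linarith
    _ = _ := mul_one _

/-- The universal bound. -/
noncomputable def Kb : ℝ≥0∞ :=
  (∫⁻ σ : ℝ, ENNReal.ofReal (1 + σ ^ 2)⁻¹) * ∫⁻ u, ENNReal.ofReal (Kc * (1 + u ^ 2)) ∂g1

lemma Kb_ne_top : Kb ≠ ∞ := by
  refine ENNReal.mul_ne_top ?_ ?_
  · exact integrable_inv_one_add_sq.lintegral_lt_top.ne
  · have h2 : Integrable (fun u : ℝ => u ^ 2) g1 := by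
      simpa using (memLp_id_gaussianReal (μ := 0) (v := 1) 2).integrable_sq
    exact (((integrable_const 1).add h2).const_mul Kc).lintegral_lt_top.ne

lemma lintegral_bound (lam : Measure (Fin n → ℝ)) [IsProbabilityMeasure lam] (j : Fin n)
    (h : lam.map (fun y => y j) = g1) :
    ∫⁻ p : ℝ × (Fin n → ℝ), ENNReal.ofReal ((1 + p.1 ^ 2)⁻¹ * (Kc * (1 + p.2 j ^ 2)))
      ∂(volume.prod lam) = Kb := by
  have h1 : ∀ p : ℝ × (Fin n → ℝ), ENNReal.ofReal ((1 + p.1 ^ 2)⁻¹ * (Kc * (1 + p.2 j ^ 2))) =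
      ENNReal.ofReal (1 + p.1 ^ 2)⁻¹ * ENNReal.ofReal (Kc * (1 + p.2 j ^ 2)) := fun p =>
    ENNReal.ofReal_mul (by positivity)
  simp_rw [h1]
  rw [lintegral_prod_mul (f := fun σ : ℝ => ENNReal.ofReal (1 + σ ^ 2)⁻¹)
    (g := fun c : Fin n → ℝ => ENNReal.ofReal (Kc * (1 + c j ^ 2))) (by fun_prop)
    (Measurable.aemeasurable (by fun_prop)),
    Kb, ← h, lintegral_map (by fun_prop) (by fun_prop)]

lemma ae_fst_ne_zero (lam : Measure (Fin n → ℝ)) [IsProbabilityMeasure lam] :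
    ∀ᵐ p ∂((volume : Measure ℝ).prod lam), p.1 ≠ 0 := by
  have : ∀ᵐ σ ∂(volume : Measure ℝ), σ ≠ 0 := by simp [ae_iff]
  exact Measure.quasiMeasurePreserving_fst.ae this

lemma lintegral_Fd (lam : Measure (Fin n → ℝ)) [IsProbabilityMeasure lam] {d : ℕ} (hd : 0 < d) :
    ∫⁻ p, ENNReal.ofReal (Fd lam d p) ∂(volume.prod lam) =
      (d : ℝ≥0∞) * 2 ^ d * ∫⁻ p, (g1.prod lam) (evB |p.1| p.2) ^ d ∂(g1.prod lam) := by
  have hd' : (0 : ℝ) < d := by exact_mod_cast hd
  have hm0 : Measurable fun p : ℝ × (Fin n → ℝ) => (g1.prod lam) (evB p.1 p.2) :=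
    measurable_measure_prodMk_left (ν := g1.prod lam) measurableSet_evB_joint
  have hm1 : Measurable fun p : ℝ × (Fin n → ℝ) => (g1.prod lam) (evB |p.1| p.2) ^ d :=
    (hm0.comp (f := fun p : ℝ × (Fin n → ℝ) => (|p.1|, p.2)) (by fun_prop)).pow_const d
  rw [lintegral_prod_symm _ (measurable_Fd lam d).ennreal_ofReal.aemeasurable,
    lintegral_prod_symm _ hm1.aemeasurable, ← lintegral_const_mul _ hm1.lintegral_prod_left']
  refine lintegral_congr fun c => ?_
  have hm2 : Measurable fun t : ℝ => (g1.prod lam) (evB |t| c) ^ d :=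
    hm1.comp (f := fun t : ℝ => (t, c)) (by fun_prop)
  have hg : ∫⁻ t, (g1.prod lam) (evB |t| c) ^ d ∂g1 =
      ∫⁻ t, (gaussianPDF 0 1 * fun t => (g1.prod lam) (evB |t| c) ^ d) t := by
    rw [← lintegral_withDensity_eq_lintegral_mul _ (measurable_gaussianPDF 0 1) hm2,
      ← gaussianReal_of_var_ne_zero _ one_ne_zero]
  simp only
  rw [hg, mul_assoc, ← lintegral_const_mul _ ((measurable_gaussianPDF 0 1).mul hm2)]
  have hmap := Real.map_volume_mul_left (a := (d : ℝ)⁻¹) (inv_ne_zero hd'.ne')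
  rw [inv_inv, abs_of_pos hd', ENNReal.ofReal_natCast] at hmap
  rw [← smul_eq_mul, ← lintegral_smul_measure, ← hmap, lintegral_map _ (by fun_prop)]
  · refine lintegral_congr fun σ => ?_
    simp only [Fd, Pi.mul_apply]
    have e1 : |(d : ℝ)⁻¹ * σ| = |σ| / d := by
      rw [abs_mul, abs_inv, abs_of_pos hd']; ring
    have e2 : (d : ℝ)⁻¹ * σ = σ / d := by ring
    rw [e1, e2, ENNReal.ofReal_mul (pow_nonneg (mul_nonneg two_pos.le (bet_nonneg _ _ _)) _),
      ENNReal.ofReal_pow (mul_nonneg two_pos.le (bet_nonneg _ _ _)),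
      ENNReal.ofReal_mul two_pos.le, bet, ofReal_measureReal, mul_pow, gaussianPDF]
    simp only [ENNReal.ofReal_ofNat]
    ring
  · exact ((measurable_gaussianPDF 0 1).mul hm2).const_mul _

theorem core_bound (lam : Measure (Fin n → ℝ)) [IsProbabilityMeasure lam] (j : Fin n)
    (h : lam.map (fun y => y j) = g1) (d : ℕ) :
    (d : ℝ≥0∞) * 2 ^ d * ∫⁻ p, (g1.prod lam) (evB |p.1| p.2) ^ d ∂(g1.prod lam) ≤ Kb := by
  rcases Nat.eq_zero_or_pos d with rfl | hd
  · simp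
  rw [← lintegral_Fd lam hd, ← lintegral_bound lam j h]
  refine lintegral_mono_ae ?_
  filter_upwards [ae_fst_ne_zero lam] with p hp
  exact ENNReal.ofReal_le_ofReal (Fd_le lam j h hd p hp)

theorem core_limit (lam : Measure (Fin n → ℝ)) [IsProbabilityMeasure lam] (j : Fin n)
    (h : ∀ i, lam.map (fun y => y i) = g1) (hpos : lam {c | ∀ i, c i < 0} ≠ 0) :
    ∃ L, 0 < L ∧ Tendsto (fun d : ℕ =>
      (d : ℝ≥0∞) * 2 ^ d * ∫⁻ p, (g1.prod lam) (evB |p.1| p.2) ^ d ∂(g1.prod lam)) atTop (𝓝 L) := by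
  obtain ⟨L, hL, hT⟩ := exists_tendsto_lintegral_pos (μ := volume.prod lam)
    (F := fun d p => ENNReal.ofReal (Fd lam (d + 1) p))
    (fun p => ENNReal.ofReal ((1 + p.1 ^ 2)⁻¹ * (Kc * (1 + p.2 j ^ 2))))
    (fun d => (measurable_Fd lam (d + 1)).ennreal_ofReal)
    (fun d => by
      filter_upwards [ae_fst_ne_zero lam] with p hp
      exact ENNReal.ofReal_le_ofReal (Fd_le lam j (h j) d.succ_pos p hp))
    (by rw [lintegral_bound lam j (h j)]; exact Kb_ne_top)
    (by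
      filter_upwards [ae_fst_ne_zero lam] with p hp
      by_cases hc : ∀ i, p.2 i < 0
      · obtain ⟨l, _, hl⟩ := tendsto_Fd_good lam h p hp hc
        exact ⟨_, ENNReal.tendsto_ofReal ((tendsto_add_atTop_iff_nat 1).2 hl)⟩
      · exact ⟨_, ENNReal.tendsto_ofReal
          ((tendsto_add_atTop_iff_nat 1).2 (tendsto_Fd_bad lam h p hp hc))⟩)
    (univ ×ˢ {c | ∀ i, c i < 0})
    (by rw [Measure.prod_prod]; exact mul_ne_zero (by simp) hpos)
    (by
      filter_upwards [ae_fst_ne_zero lam] with p hp hS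
      obtain ⟨l, hl0, hl⟩ := tendsto_Fd_good lam h p hp hS.2
      exact ⟨_, ENNReal.ofReal_pos.2 hl0,
        ENNReal.tendsto_ofReal ((tendsto_add_atTop_iff_nat 1).2 hl)⟩)
  refine ⟨L, hL, (tendsto_add_atTop_iff_nat 1).1 (hT.congr fun d => ?_)⟩
  exact lintegral_Fd lam d.succ_pos

end Pool.Agent.P.MP_d3a052_pr
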