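import Pool.Agent.P.MP_d3a052_pr.PiLemmas

/-! The symmetry `m(d,k) = m(k,d)` in Gaussian coordinates. -/

open MeasureTheory ProbabilityTheory Filter Topology Set Matrix
open scoped ENNReal NNReal MatrixOrder

namespace Pool.Agent.P.MP_d3a052_pr

/-- Positive hull of the rows of an array. -/
def coneV {a b : ℕ} (G : Fin a → Fin b → ℝ) : Set (Fin b → ℝ) :=
  {y | ∃ l : Fin a → ℝ, (∀ i, 0 ≤ l i) ∧ y = ∑ i, l i • G i}

lemma sum_smul_eq_vecMul {a b : ℕ} (G : Fin a → Fin b → ℝ) (l : Fin a → ℝ) :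
    ∑ i, l i • G i = l ᵥ* Matrix.of G := by
  ext j
  simp [Matrix.vecMul, dotProduct]

lemma coneV_eq {d : ℕ} {G : Fin d → Fin d → ℝ} (hG : (Matrix.of G).det ≠ 0) :
    coneV G = {y | y ᵥ* (Matrix.of G)⁻¹ ∈ Ici 0} := by
  have hu : IsUnit (Matrix.of G).det := hG.isUnit
  ext y
  simp only [coneV, mem_ofPred_eq, mem_Ici, sum_smul_eq_vecMul]
  constructor
  · rintro ⟨l, hl, rfl⟩
    rw [Matrix.vecMul_vecMul, Matrix.mul_nonsing_inv _ hu, Matrix.vecMul_one]
    exact hl
  · intro h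
    exact ⟨_, h, by rw [Matrix.vecMul_vecMul, Matrix.nonsing_inv_mul _ hu, Matrix.vecMul_one]⟩

/-- Gaussian mass of the image of `S` under the matrix, written as an integral. -/
noncomputable def aS {d : ℕ} (S : Set (Fin d → ℝ)) (G : Fin d → Fin d → ℝ) : ℝ≥0∞ :=
  ∫⁻ l in S, ENNReal.ofReal |(Matrix.of G).det| * phi (l ᵥ* Matrix.of G)

lemma continuous_vecMul_of {a b : ℕ} :
    Continuous fun p : (Fin a → Fin b → ℝ) × (Fin a → ℝ) => p.2 ᵥ* Matrix.of p.1 := by
  simp_rw [← sum_smul_eq_vecMul]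
  fun_prop

lemma measurable_aS_integrand {d : ℕ} :
    Measurable fun p : (Fin d → Fin d → ℝ) × (Fin d → ℝ) =>
      ENNReal.ofReal |(Matrix.of p.1).det| * phi (p.2 ᵥ* Matrix.of p.1) :=
  ((continuous_det_of.comp continuous_fst).abs.measurable.ennreal_ofReal).mul
    (measurable_phi.comp continuous_vecMul_of.measurable)

lemma measurable_vecMul {a b : ℕ} (A : Matrix (Fin a) (Fin b) ℝ) :
    Measurable fun y : Fin a → ℝ => y ᵥ* A :=
  (continuous_vecMul_of.comp (f := fun y : Fin a → ℝ => (Matrix.of.symm A, y))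
    (by fun_prop)).measurable

lemma gam_preimage {d : ℕ} {G : Fin d → Fin d → ℝ} (hG : (Matrix.of G).det ≠ 0)
    {S : Set (Fin d → ℝ)} (hS : MeasurableSet S) :
    gam d {y | y ᵥ* (Matrix.of G)⁻¹ ∈ S} = aS S G := by
  have hu : IsUnit (Matrix.of G).det := hG.isUnit
  have hT : MeasurableSet {y | y ᵥ* (Matrix.of G)⁻¹ ∈ S} := measurable_vecMul _ hS
  have hmap := Real.map_matrix_volume_pi_eq_smul_volume_pi (M := (Matrix.of G)ᵀ)
    (by rwa [Matrix.det_transpose])
  have hfun : ⇑(Matrix.toLin' (Matrix.of G)ᵀ) = fun l => l ᵥ* Matrix.of G := by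
    ext l : 1
    simp [Matrix.mulVec_transpose]
  rw [hfun, Matrix.det_transpose] at hmap
  have h1 : ∫⁻ l, {y | y ᵥ* (Matrix.of G)⁻¹ ∈ S}.indicator phi (l ᵥ* Matrix.of G) =
      ENNReal.ofReal |(Matrix.of G).det⁻¹| * gam d {y | y ᵥ* (Matrix.of G)⁻¹ ∈ S} := by
    rw [← lintegral_map (measurable_phi.indicator hT) (measurable_vecMul _), hmap,
      lintegral_smul_measure, lintegral_indicator hT, gam_eq, withDensity_apply _ hT, smul_eq_mul]
  have h2 : ∀ l, {y | y ᵥ* (Matrix.of G)⁻¹ ∈ S}.indicator phi (l ᵥ* Matrix.of G) =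
      S.indicator (fun l => phi (l ᵥ* Matrix.of G)) l := by
    intro l
    have : l ᵥ* Matrix.of G ∈ {y | y ᵥ* (Matrix.of G)⁻¹ ∈ S} ↔ l ∈ S := by
      rw [mem_ofPred_eq, Matrix.vecMul_vecMul, Matrix.mul_nonsing_inv _ hu, Matrix.vecMul_one]
    by_cases hl : l ∈ S
    · rw [indicator_of_mem hl, indicator_of_mem (this.2 hl)]
    · rw [indicator_of_notMem hl, indicator_of_notMem (fun h => hl (this.1 h))]
  simp_rw [h2] at h1
  rw [lintegral_indicator hS] at h1
  rw [aS, lintegral_const_mul' _ _ ENNReal.ofReal_ne_top, h1, ← mul_assoc,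
    ← ENNReal.ofReal_mul (abs_nonneg _), ← abs_mul, mul_inv_cancel₀ hG]
  simp

/-- Squared Frobenius norm. -/
def Nq {a b : ℕ} (A : Matrix (Fin a) (Fin b) ℝ) : ℝ := ∑ i, ∑ j, A i j ^ 2

lemma Nq_eq {a b : ℕ} (A : Matrix (Fin a) (Fin b) ℝ) : Nq A = (Aᵀ * A).trace := by
  rw [Nq, Finset.sum_comm]
  simp [Matrix.trace, Matrix.mul_apply, sq]

lemma prod_phi {a b : ℕ} (A : Matrix (Fin a) (Fin b) ℝ) :
    ∏ i, phi (A i) =
      ENNReal.ofReal ((√(2 * Real.pi))⁻¹ ^ (a * b) * Real.exp (-(Nq A) / 2)) := by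
  simp_rw [phi_eq]
  rw [← ENNReal.ofReal_prod_of_nonneg fun i _ => by positivity]
  congr 1
  rw [Finset.prod_mul_distrib, ← Real.exp_sum, Nq]
  simp [Finset.sum_div, neg_div, ← pow_mul, mul_comm]

/-- The integrand of the normalising constant. -/
noncomputable def wq (d k : ℕ) (G : Fin d → Fin d → ℝ) : ℝ≥0∞ :=
  ENNReal.ofReal ((√(2 * Real.pi))⁻¹ ^ (d * d) * (√(2 * Real.pi))⁻¹ ^ (k * d) *
    |(Matrix.of G).det| ^ k * Real.exp (-(Nq (Matrix.of G)) / 2))

lemma measurable_wq (d k : ℕ) : Measurable (wq d k) := by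
  have h1 := continuous_det_of (d := d)
  have h2 : Continuous fun G : Fin d → Fin d → ℝ => Nq (Matrix.of G) := by
    simp only [Nq, Matrix.of_apply]; fun_prop
  unfold wq
  exact (Continuous.measurable (by fun_prop)).ennreal_ofReal

/-- The unnormalised matrix Cauchy density. -/
noncomputable def rho {k d : ℕ} (X : Fin k → Fin d → ℝ) : ℝ≥0∞ :=
  ENNReal.ofReal ((√((1 + (Matrix.of X)ᵀ * Matrix.of X).det))⁻¹ ^ (d + k))

lemma measurable_rho {k d : ℕ} : Measurable (rho (k := k) (d := d)) := by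
  have h0 : Continuous fun X : Fin k → Fin d → ℝ => Matrix.of X := continuous_id
  have h1 : Continuous fun X : Fin k → Fin d → ℝ => (1 + (Matrix.of X)ᵀ * Matrix.of X).det :=
    (continuous_const.add (h0.matrix_transpose.matrix_mul h0)).matrix_det
  unfold rho
  exact (h1.measurable.sqrt.inv.pow_const _).ennreal_ofReal

lemma rho_tr {k d : ℕ} (X : Fin k → Fin d → ℝ) : rho (fun j i => X i j) = rho X := by
  have : (Matrix.of fun j i => X i j) = (Matrix.of X)ᵀ := rfl
  rw [rho, rho, this, Matrix.transpose_transpose, Matrix.det_one_add_mul_comm, add_comm k d]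

lemma inner_integral {k d : ℕ} (X : Fin k → Fin d → ℝ) :
    ∫⁻ G : Fin d → Fin d → ℝ, (∏ i, phi (G i)) *
      ∏ j, (ENNReal.ofReal |(Matrix.of G).det| * phi (X j ᵥ* Matrix.of G)) =
      (∫⁻ G, wq d k G) * rho X := by
  have hpd : (1 + (Matrix.of X)ᵀ * Matrix.of X).PosDef :=
    Matrix.PosDef.one.add_posSemidef (by
      simpa using Matrix.posSemidef_conjTranspose_mul_self (Matrix.of X))
  obtain ⟨M, hM⟩ := CStarAlgebra.nonneg_iff_eq_star_mul_self.mp hpd.posSemidef.nonneg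
  have hM' : 1 + (Matrix.of X)ᵀ * Matrix.of X = Mᵀ * M := by
    rw [hM, Matrix.star_eq_conjTranspose, Matrix.conjTranspose_eq_transpose_of_trivial]
  have hdet : (1 + (Matrix.of X)ᵀ * Matrix.of X).det = M.det ^ 2 := by
    rw [hM', Matrix.det_mul, Matrix.det_transpose, sq]
  have hM0 : M.det ≠ 0 := by
    intro h
    have := hpd.det_pos
    rw [hdet, h] at this
    simp at this
  have hMa : 0 < |M.det| := abs_pos.2 hM0
  have key : ∀ G : Fin d → Fin d → ℝ, (∏ i, phi (G i)) *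
      ∏ j, (ENNReal.ofReal |(Matrix.of G).det| * phi (X j ᵥ* Matrix.of G)) =
      ENNReal.ofReal (|M.det|⁻¹ ^ k) * wq d k (lmul M G) := by
    intro G
    have e1 : ∏ i, phi (G i) = ∏ i, phi (Matrix.of G i) := rfl
    have e2 : ∏ j, phi (X j ᵥ* Matrix.of G) = ∏ j, phi ((Matrix.of X * Matrix.of G) j) := rfl
    have e3 : Nq (M * Matrix.of G) = Nq (Matrix.of G) + Nq (Matrix.of X * Matrix.of G) := by
      rw [Nq_eq, Nq_eq, Nq_eq, ← Matrix.trace_add, Matrix.transpose_mul, Matrix.transpose_mul,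
        Matrix.mul_assoc, ← Matrix.mul_assoc Mᵀ, ← hM', Matrix.add_mul, Matrix.mul_add,
        Matrix.one_mul, Matrix.mul_assoc, Matrix.mul_assoc]
    rw [Finset.prod_mul_distrib, e1, e2, prod_phi, prod_phi, Finset.prod_const, Finset.card_univ,
      Fintype.card_fin, wq, lmul_apply, e3, Matrix.det_mul, abs_mul,
      ← ENNReal.ofReal_pow (abs_nonneg _), ← ENNReal.ofReal_mul (by positivity),
      ← ENNReal.ofReal_mul (by positivity), ← ENNReal.ofReal_mul (by positivity)]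
    congr 1
    rw [neg_add, add_div, Real.exp_add, mul_pow, inv_pow |M.det|]
    field_simp
  simp_rw [key]
  rw [lintegral_const_mul' _ _ ENNReal.ofReal_ne_top, lintegral_lmul hM0 (measurable_wq d k),
    rho, hdet, Real.sqrt_sq_eq_abs, pow_add, ENNReal.ofReal_mul (by positivity)]
  ring

lemma lintegral_aS_pow {d : ℕ} (k : ℕ) (S : Set (Fin d → ℝ)) :
    ∫⁻ G, aS S G ^ k ∂(Measure.pi fun _ : Fin d => gam d) =
      (∫⁻ G, wq d k G) * ∫⁻ X in univ.pi fun _ : Fin k => S, rho X := by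
  have hma : Measurable (aS S) := measurable_aS_integrand.lintegral_prod_right'
  have hmp : Measurable fun G : Fin d → Fin d → ℝ => ∏ i, phi (G i) :=
    Finset.measurable_prod _ fun i _ => measurable_phi.comp (measurable_pi_apply i)
  have hj : Measurable fun p : (Fin d → Fin d → ℝ) × (Fin k → Fin d → ℝ) =>
      ∏ j, (ENNReal.ofReal |(Matrix.of p.1).det| * phi (p.2 j ᵥ* Matrix.of p.1)) :=
    Finset.measurable_prod _ fun j _ => measurable_aS_integrand.comp
      (f := fun p : (Fin d → Fin d → ℝ) × (Fin k → Fin d → ℝ) => (p.1, p.2 j)) (by fun_prop)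
  have h1 : ∀ G, aS S G ^ k = ∫⁻ X in univ.pi fun _ : Fin k => S,
      ∏ j, (ENNReal.ofReal |(Matrix.of G).det| * phi (X j ᵥ* Matrix.of G)) := by
    intro G
    rw [volume_pi, Measure.restrict_pi_pi, lintegral_pi_prod _
      (fun _ l => ENNReal.ofReal |(Matrix.of G).det| * phi (l ᵥ* Matrix.of G))
      (fun _ => measurable_aS_integrand.comp (f := fun l => (G, l)) (by fun_prop))]
    simp [aS]
  rw [pi_gam_eq, lintegral_withDensity_eq_lintegral_mul _ hmp (hma.pow_const k)]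
  simp only [Pi.mul_apply, h1]
  have h2 : ∀ G : Fin d → Fin d → ℝ, (∏ i, phi (G i)) * ∫⁻ X in univ.pi fun _ : Fin k => S,
      ∏ j, (ENNReal.ofReal |(Matrix.of G).det| * phi (X j ᵥ* Matrix.of G)) =
      ∫⁻ X in univ.pi fun _ : Fin k => S, (∏ i, phi (G i)) *
      ∏ j, (ENNReal.ofReal |(Matrix.of G).det| * phi (X j ᵥ* Matrix.of G)) := fun G =>
    (lintegral_const_mul _ (hj.comp (f := fun X => (G, X)) (by fun_prop))).symm
  simp_rw [h2]
  rw [lintegral_lintegral_swap ((hmp.comp measurable_fst).mul hj).aemeasurable]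
  simp_rw [inner_integral]
  rw [lintegral_const_mul _ measurable_rho]

/-- The moment in Gaussian coordinates. -/
noncomputable def MV (d k : ℕ) : ℝ≥0∞ :=
  ∫⁻ G, gam d (coneV G) ^ k ∂(Measure.pi fun _ : Fin d => gam d)

lemma MV_eq (d k : ℕ) : MV d k =
    (∫⁻ G, wq d k G) * ∫⁻ X in univ.pi fun _ : Fin k => Ici (0 : Fin d → ℝ), rho X := by
  rw [← lintegral_aS_pow]
  refine lintegral_congr_ae ?_
  filter_upwards [ae_det_ne_zero_gam d] with G hG
  rw [coneV_eq hG, gam_preimage hG measurableSet_Ici]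

lemma wq_norm (d k : ℕ) : (∫⁻ G, wq d k G) * ∫⁻ X : Fin k → Fin d → ℝ, rho X = 1 := by
  have h := lintegral_aS_pow k (univ : Set (Fin d → ℝ))
  rw [pi_univ, Measure.restrict_univ] at h
  rw [← h]
  have : ∀ᵐ G ∂(Measure.pi fun _ : Fin d => gam d), aS univ G ^ k = 1 := by
    filter_upwards [ae_det_ne_zero_gam d] with G hG
    rw [← gam_preimage hG MeasurableSet.univ]
    simp
  rw [lintegral_congr_ae this]
  simp

theorem MV_symm (d k : ℕ) : MV d k = MV k d := by
  have h1 : ∫⁻ X : Fin d → Fin k → ℝ, rho X = ∫⁻ X : Fin k → Fin d → ℝ, rho X := by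
    rw [← (measurePreserving_tr k d).lintegral_comp measurable_rho]
    simp_rw [rho_tr]
  have hS : ∀ a b : ℕ, MeasurableSet (univ.pi fun _ : Fin a => Ici (0 : Fin b → ℝ)) :=
    fun a b => MeasurableSet.univ_pi fun _ => measurableSet_Ici
  have h2 : ∫⁻ X in univ.pi fun _ : Fin d => Ici (0 : Fin k → ℝ), rho X =
      ∫⁻ X in univ.pi fun _ : Fin k => Ici (0 : Fin d → ℝ), rho X := by
    rw [← lintegral_indicator (hS d k), ← lintegral_indicator (hS k d),
      ← (measurePreserving_tr k d).lintegral_comp (measurable_rho.indicator (hS d k))]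
    refine lintegral_congr fun X => ?_
    have : (fun j i => X i j) ∈ (univ.pi fun _ : Fin d => Ici (0 : Fin k → ℝ)) ↔
        X ∈ univ.pi fun _ : Fin k => Ici (0 : Fin d → ℝ) := by
      simp only [mem_univ_pi, mem_Ici, Pi.le_def]
      exact forall_comm
    by_cases hX : X ∈ univ.pi fun _ : Fin k => Ici (0 : Fin d → ℝ)
    · rw [indicator_of_mem hX, indicator_of_mem (this.2 hX), rho_tr]
    · rw [indicator_of_notMem hX, indicator_of_notMem (fun h => hX (this.1 h))]
  have h3 := wq_norm d k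
  have h4 := wq_norm k d
  rw [h1] at h4
  rw [MV_eq, MV_eq, h2, ENNReal.eq_inv_of_mul_eq_one_left h3,
    ENNReal.eq_inv_of_mul_eq_one_left h4]

end Pool.Agent.P.MP_d3a052_pr
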