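import Pool.Agent.P.MP_d3a052_pr.Defs
import Pool.Agent.P.MP_d3a052_pr.Core
import Pool.Agent.P.MP_d3a052_pr.Sym

/-! Asymptotics of the Gaussian moments. -/

open MeasureTheory ProbabilityTheory Filter Topology Set Module
open scoped ENNReal NNReal RealInnerProductSpace

namespace Pool.Agent.P.MP_d3a052_pr

/-- Standard Gaussian measure on Euclidean space. -/
noncomputable abbrev sg (d : ℕ) : Measure (EuclideanSpace ℝ (Fin d)) :=
  stdGaussian (EuclideanSpace ℝ (Fin d))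

lemma measurableSet_posHull_joint {d n : ℕ} :
    MeasurableSet {p : (Fin n → EuclideanSpace ℝ (Fin d)) × EuclideanSpace ℝ (Fin d) |
      p.2 ∈ posHull p.1} := by
  let f : (Fin n → EuclideanSpace ℝ (Fin d)) × (Fin n → ℝ) →
      (Fin n → EuclideanSpace ℝ (Fin d)) × EuclideanSpace ℝ (Fin d) :=
    fun q => (q.1, ∑ i, q.2 i • q.1 i)
  have hf : Continuous f := by fun_prop
  have hcl : IsClosed {q : (Fin n → EuclideanSpace ℝ (Fin d)) × (Fin n → ℝ) | 0 ≤ q.2} :=
    isClosed_le continuous_const continuous_snd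
  have hs := (isSigmaCompact_univ.of_isClosed_subset hcl (subset_univ _)).image hf
  have he : {p : (Fin n → EuclideanSpace ℝ (Fin d)) × EuclideanSpace ℝ (Fin d) |
      p.2 ∈ posHull p.1} = f '' {q | 0 ≤ q.2} := by
    ext ⟨U, x⟩
    constructor
    · rintro ⟨l, hl, hx⟩
      exact ⟨(U, l), hl, Prod.ext rfl hx.symm⟩
    · rintro ⟨⟨U', l⟩, hl, h⟩
      obtain ⟨rfl, rfl⟩ := Prod.ext_iff.1 h
      exact ⟨l, hl, rfl⟩
  rw [he]
  obtain ⟨K, hK, hU⟩ := hs
  rw [← hU]
  exact MeasurableSet.iUnion fun i => (hK i).measurableSet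

lemma measurableSet_posHull {d n : ℕ} (U : Fin n → EuclideanSpace ℝ (Fin d)) :
    MeasurableSet (posHull U) :=
  measurable_prodMk_left (x := U) measurableSet_posHull_joint

lemma measurable_sg_posHull {d n : ℕ} :
    Measurable fun U : Fin n → EuclideanSpace ℝ (Fin d) => sg d (posHull U) :=
  measurable_measure_prodMk_left (ν := sg d) measurableSet_posHull_joint

lemma mp_toLp (d : ℕ) : MeasurePreserving (MeasurableEquiv.toLp 2 (Fin d → ℝ)) (gam d) (sg d) :=
  ⟨(MeasurableEquiv.toLp 2 (Fin d → ℝ)).measurable, map_pi_eq_stdGaussian⟩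

/-- The moment for Gaussian vectors in Euclidean space. -/
noncomputable def ME (d k : ℕ) : ℝ≥0∞ :=
  ∫⁻ U, sg d (posHull U) ^ k ∂(Measure.pi fun _ : Fin d => sg d)

lemma ME_eq_MV (d k : ℕ) : ME d k = MV d k := by
  have h := measurePreserving_pi (fun _ : Fin d => gam d) (fun _ : Fin d => sg d)
    (fun _ => mp_toLp d)
  rw [ME, MV, ← h.lintegral_comp (measurable_sg_posHull.pow_const k)]
  refine lintegral_congr fun G => ?_
  rw [← (mp_toLp d).measure_preimage (measurableSet_posHull _).nullMeasurableSet]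
  congr 2
  ext y
  simp only [mem_preimage, posHull, coneV, mem_ofPred_eq, MeasurableEquiv.toLp_apply]
  refine exists_congr fun l => and_congr_right fun _ => ?_
  rw [← (WithLp.toLp_injective 2).eq_iff (a := y)]
  simp

theorem ME_symm (d k : ℕ) : ME d k = ME k d := by rw [ME_eq_MV, ME_eq_MV, MV_symm]

lemma ae_linearIndependent (d : ℕ) :
    ∀ᵐ U ∂(Measure.pi fun _ : Fin d => sg d), LinearIndependent ℝ U := by
  have h := measurePreserving_pi (fun _ : Fin d => sg d) (fun _ : Fin d => gam d)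
    (fun _ => (mp_toLp d).symm)
  filter_upwards [h.quasiMeasurePreserving.ae (ae_det_ne_zero_gam d)] with U hU
  have h1 := Matrix.linearIndependent_rows_of_det_ne_zero hU
  exact LinearIndependent.of_comp (WithLp.linearEquiv 2 ℝ (Fin d → ℝ)).toLinearMap h1

lemma sg_open_pos {d : ℕ} {s : Set (EuclideanSpace ℝ (Fin d))} (hs : IsOpen s)
    (hne : s.Nonempty) : sg d s ≠ 0 := by
  rw [← (mp_toLp d).measure_preimage hs.measurableSet.nullMeasurableSet, gam_eq]
  intro h
  have hac : (volume : Measure (Fin d → ℝ)) ≪ volume.withDensity phi :=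
    withDensity_absolutelyContinuous' measurable_phi.aemeasurable (.of_forall fun x =>
      Finset.prod_ne_zero_iff.2 fun i _ => (gaussianPDF_pos _ one_ne_zero _).ne')
  have h1 := hac h
  have ho : IsOpen (MeasurableEquiv.toLp 2 (Fin d → ℝ) ⁻¹' s) :=
    hs.preimage (PiLp.continuous_toLp 2 _)
  exact ho.measure_ne_zero _ (hne.preimage (MeasurableEquiv.toLp 2 (Fin d → ℝ)).surjective) h1

lemma map_inner_sg {d : ℕ} {w : EuclideanSpace ℝ (Fin d)} (hw : ‖w‖ = 1) :
    (sg d).map (fun x => ⟪w, x⟫) = g1 := by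
  have h := IsGaussian.map_eq_gaussianReal (μ := sg d) (innerSL ℝ w)
  rw [integral_strongDual_stdGaussian, variance_dual_stdGaussian, innerSL_apply_norm, hw] at h
  simpa using h

lemma map_T {d n : ℕ} {ν : EuclideanSpace ℝ (Fin d)} (hν : ‖ν‖ = 1)
    {m : Fin n → EuclideanSpace ℝ (Fin d)} (hm : ∀ i, ⟪ν, m i⟫ = 0) :
    (sg d).map (fun x => (⟪ν, x⟫, fun i => ⟪m i, x⟫)) =
      g1.prod ((sg d).map (fun x i => ⟪m i, x⟫)) := by
  let L : EuclideanSpace ℝ (Fin d) →L[ℝ] (Unit → ℝ) × (Fin n → ℝ) :=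
    (ContinuousLinearMap.pi fun _ => innerSL ℝ ν).prod
      (ContinuousLinearMap.pi fun i => innerSL ℝ (m i))
  have hG : HasGaussianLaw (fun x => (fun _ : Unit => ⟪ν, x⟫, fun i => ⟪m i, x⟫)) (sg d) :=
    IsGaussian.hasGaussianLaw_id.map L
  have hI := hG.indepFun_of_covariance_eval (X := fun _ x => ⟪ν, x⟫) (Y := fun i x => ⟪m i, x⟫)
    (fun _ j => by
      rw [← covarianceBilin_apply_eq_cov IsGaussian.memLp_two_id, covarianceBilin_stdGaussian]
      exact hm j)
  have hI2 : IndepFun (fun x => ⟪ν, x⟫) (fun x i => ⟪m i, x⟫) (sg d) :=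
    hI.comp (φ := fun f : Unit → ℝ => f ()) (ψ := id) (by fun_prop) measurable_id
  rw [hI2.map_prod_eq_prod_map_map (Measurable.aemeasurable (by fun_prop))
    (Measurable.aemeasurable (by fun_prop)), map_inner_sg hν]

lemma exists_dual {n : ℕ} {v : Fin n → EuclideanSpace ℝ (Fin (n + 1))}
    (hv : LinearIndependent ℝ v) :
    ∃ (ν : EuclideanSpace ℝ (Fin (n + 1))) (m : Fin n → EuclideanSpace ℝ (Fin (n + 1)))
      (r : Fin n → ℝ), ‖ν‖ = 1 ∧ (∀ i, ‖m i‖ = 1) ∧ (∀ i, ⟪ν, m i⟫ = 0) ∧ (∀ i, 0 < r i) ∧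
      (∀ i, ⟪ν, v i⟫ = 0) ∧ (∀ i j, ⟪m i, v j⟫ = if i = j then r i else 0) ∧
      ∀ x, ⟪ν, x⟫ = 0 → (∀ i, ⟪m i, x⟫ = 0) → x = 0 := by
  set K := Submodule.span ℝ (range v) with hK
  have h1 : finrank ℝ K = n := by rw [hK, finrank_span_eq_card hv]; simp
  have h2 := K.finrank_add_finrank_orthogonal
  rw [h1, finrank_euclideanSpace, Fintype.card_fin] at h2
  have h3 : Kᗮ ≠ ⊥ := by
    intro h
    rw [h] at h2
    simp at h2
  obtain ⟨w, hw, hw0⟩ := Submodule.exists_mem_ne_zero_of_ne_bot h3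
  set ν := ‖w‖⁻¹ • w with hνdef
  have hν : ‖ν‖ = 1 := norm_smul_inv_norm hw0
  have hνK : ν ∈ Kᗮ := Submodule.smul_mem _ _ hw
  have hνv : ∀ i, ⟪ν, v i⟫ = 0 := fun i =>
    Submodule.inner_left_of_mem_orthogonal (Submodule.subset_span (mem_range_self i)) hνK
  have hνn : ν ∉ K := by
    intro h
    have := Submodule.inner_left_of_mem_orthogonal h hνK
    rw [real_inner_self_eq_norm_sq, hν] at this
    simp at this
  have hli : LinearIndependent ℝ (Fin.cons ν v : Fin (n + 1) → EuclideanSpace ℝ (Fin (n + 1))) :=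
    linearIndependent_finCons.2 ⟨hv, hνn⟩
  let b := basisOfLinearIndependentOfCardEqFinrank hli (by simp)
  have hb : ⇑b = Fin.cons ν v := coe_basisOfLinearIndependentOfCardEqFinrank _ _
  have hb0 : b 0 = ν := by rw [hb]; rfl
  have hbs : ∀ i, b (Fin.succ i) = v i := fun i => by rw [hb]; rfl
  let m0 : Fin n → EuclideanSpace ℝ (Fin (n + 1)) := fun i =>
    (InnerProductSpace.toDual ℝ _).symm (LinearMap.toContinuousLinearMap (b.coord i.succ))
  have hm0 : ∀ i x, ⟪m0 i, x⟫ = b.repr x i.succ := fun i x => by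
    simp [m0, InnerProductSpace.toDual_symm_apply]
  have hm0v : ∀ i j, ⟪m0 i, v j⟫ = if i = j then 1 else 0 := fun i j => by
    rw [hm0, ← hbs, b.repr_self, Finsupp.single_apply]
    simp [eq_comm]
  have hm0ne : ∀ i, m0 i ≠ 0 := fun i h => by
    have := hm0v i i
    rw [h] at this
    simp at this
  have hpos : ∀ i, 0 < ‖m0 i‖⁻¹ := fun i => inv_pos.2 (norm_pos_iff.2 (hm0ne i))
  refine ⟨ν, fun i => ‖m0 i‖⁻¹ • m0 i, fun i => ‖m0 i‖⁻¹, hν, fun i => norm_smul_inv_norm (hm0ne i),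
    fun i => ?_, hpos, hνv, fun i j => ?_, fun x hx hmx => ?_⟩
  · rw [real_inner_smul_right, real_inner_comm, hm0, ← hb0, b.repr_self, Finsupp.single_apply]
    simp [(Fin.succ_ne_zero i).symm]
  · rw [real_inner_smul_left, hm0v]
    simp
  · have hs : ∀ i : Fin n, b.repr x i.succ = 0 := fun i => by
      have := hmx i
      rw [real_inner_smul_left, hm0] at this
      exact (mul_eq_zero.1 this).resolve_left (hpos i).ne'
    have hx2 := b.sum_repr x
    rw [Fin.sum_univ_succ] at hx2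
    simp only [hs, zero_smul, Finset.sum_const_zero, add_zero, hb0] at hx2
    rw [← hx2, real_inner_smul_right, real_inner_self_eq_norm_sq, hν] at hx
    rw [← hx2]
    simp only [one_pow, mul_one] at hx
    rw [hx, zero_smul]

lemma mem_posHull_cons {n : ℕ} {v : Fin n → EuclideanSpace ℝ (Fin (n + 1))}
    {ν : EuclideanSpace ℝ (Fin (n + 1))} {m : Fin n → EuclideanSpace ℝ (Fin (n + 1))}
    {r : Fin n → ℝ} (hr : ∀ i, 0 < r i) (hνv : ∀ i, ⟪ν, v i⟫ = 0)
    (hmv : ∀ i j, ⟪m i, v j⟫ = if i = j then r i else 0)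
    (hinj : ∀ x, ⟪ν, x⟫ = 0 → (∀ i, ⟪m i, x⟫ = 0) → x = 0)
    {g : EuclideanSpace ℝ (Fin (n + 1))} (hg : ⟪ν, g⟫ ≠ 0) (x : EuclideanSpace ℝ (Fin (n + 1))) :
    x ∈ posHull (Fin.cons g v : Fin (n + 1) → EuclideanSpace ℝ (Fin (n + 1))) ↔
      0 ≤ ⟪ν, x⟫ / ⟪ν, g⟫ ∧ ∀ i, ⟪ν, x⟫ / ⟪ν, g⟫ * ⟪m i, g⟫ ≤ ⟪m i, x⟫ := by
  have e1 : ∀ (a : ℝ) (l : Fin n → ℝ), ⟪ν, a • g + ∑ i, l i • v i⟫ = a * ⟪ν, g⟫ := by
    intro a l
    simp [inner_add_right, inner_sum, real_inner_smul_right, hνv]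
  have e2 : ∀ (a : ℝ) (l : Fin n → ℝ) (i : Fin n),
      ⟪m i, a • g + ∑ i, l i • v i⟫ = a * ⟪m i, g⟫ + l i * r i := by
    intro a l i
    simp [inner_add_right, inner_sum, real_inner_smul_right, hmv]
  constructor
  · rintro ⟨l, hl, rfl⟩
    rw [Fin.sum_univ_succ]
    simp only [Fin.cons_zero, Fin.cons_succ]
    rw [e1, mul_div_cancel_right₀ _ hg]
    refine ⟨hl 0, fun i => ?_⟩
    rw [e2]
    have := mul_nonneg (hl i.succ) (hr i).le
    linarith
  · rintro ⟨h0, h1⟩
    set a := ⟪ν, x⟫ / ⟪ν, g⟫ with ha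
    refine ⟨Fin.cons a fun i => (⟪m i, x⟫ - a * ⟪m i, g⟫) / r i, ?_, ?_⟩
    · refine Fin.cases ?_ fun i => ?_
      · simpa using h0
      · simpa using div_nonneg (sub_nonneg.2 (h1 i)) (hr i).le
    · rw [Fin.sum_univ_succ]
      simp only [Fin.cons_zero, Fin.cons_succ]
      rw [← sub_eq_zero]
      apply hinj
      · rw [inner_sub_right, e1, ha, div_mul_cancel₀ _ hg, sub_self]
      · intro i
        rw [inner_sub_right, e2, div_mul_cancel₀ _ (hr i).ne']
        ring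

lemma prod_neg_inv {n : ℕ} (lam : Measure (Fin n → ℝ)) [IsProbabilityMeasure lam] :
    MeasurePreserving (Prod.map (fun s : ℝ => -s) id) (g1.prod lam) (g1.prod lam) :=
  MeasurePreserving.prod ⟨measurable_neg, g1_neg⟩ (MeasurePreserving.id lam)

lemma inner_reduction {n : ℕ} {v : Fin n → EuclideanSpace ℝ (Fin (n + 1))}
    (hv : LinearIndependent ℝ v) :
    ∃ lam : Measure (Fin n → ℝ), ∃ _ : IsProbabilityMeasure lam,
      (∀ i, lam.map (fun y => y i) = g1) ∧ lam {c | ∀ i, c i < 0} ≠ 0 ∧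
      ∀ d : ℕ, ∫⁻ g, sg (n + 1)
        (posHull (Fin.cons g v : Fin (n + 1) → EuclideanSpace ℝ (Fin (n + 1)))) ^ d ∂sg (n + 1) =
        ∫⁻ p, (g1.prod lam) (evB |p.1| p.2) ^ d ∂(g1.prod lam) := by
  obtain ⟨ν, m, r, hν, hm, hνm, hr, hνv, hmv, hinj⟩ := exists_dual hv
  have hY : Measurable fun (x : EuclideanSpace ℝ (Fin (n + 1))) i => ⟪m i, x⟫ := by fun_prop
  set lam := (sg (n + 1)).map (fun x i => ⟪m i, x⟫) with hlam
  have hP : IsProbabilityMeasure lam := Measure.isProbabilityMeasure_map hY.aemeasurable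
  have hT : MeasurePreserving (fun x => (⟪ν, x⟫, fun i => ⟪m i, x⟫)) (sg (n + 1))
      (g1.prod lam) := ⟨by fun_prop, map_T hν hνm⟩
  refine ⟨lam, hP, fun i => ?_, ?_, fun d => ?_⟩
  · rw [hlam, Measure.map_map (measurable_pi_apply i) hY]
    exact map_inner_sg (hm i)
  · have ho : IsOpen {c : Fin n → ℝ | ∀ i, c i < 0} := by
      rw [ofPred_forall]
      exact isOpen_iInter_of_finite fun i => isOpen_lt (continuous_apply i) continuous_const
    rw [hlam, Measure.map_apply hY ho.measurableSet]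
    refine sg_open_pos (ho.preimage (by fun_prop)) ⟨-∑ j, v j, fun i => ?_⟩
    simpa [inner_sum, hmv] using hr i
  · have hm0 : Measurable fun p : ℝ × (Fin n → ℝ) => (g1.prod lam) (evB p.1 p.2) :=
      measurable_measure_prodMk_left (ν := g1.prod lam) measurableSet_evB_joint
    have hm1 : Measurable fun p : ℝ × (Fin n → ℝ) => (g1.prod lam) (evB |p.1| p.2) ^ d :=
      (hm0.comp (f := fun p : ℝ × (Fin n → ℝ) => (|p.1|, p.2)) (by fun_prop)).pow_const d
    rw [← hT.lintegral_comp hm1]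
    refine lintegral_congr_ae ?_
    have hne : ∀ᵐ p ∂(g1.prod lam), p.1 ≠ 0 := by
      have : ∀ᵐ σ ∂g1, σ ≠ 0 := by simp [ae_iff]
      exact Measure.quasiMeasurePreserving_fst.ae this
    filter_upwards [hT.quasiMeasurePreserving.ae hne] with g hg
    congr 1
    rcases lt_or_gt_of_ne hg with hneg | hposi
    · rw [← (prod_neg_inv lam).measure_preimage (measurableSet_evB _ _).nullMeasurableSet,
        ← hT.measure_preimage ((prod_neg_inv lam).measurable
          (measurableSet_evB _ _)).nullMeasurableSet]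
      congr 1
      ext x
      rw [mem_posHull_cons hr hνv hmv hinj hg]
      simp only [evB, mem_preimage, Prod.map, mem_ofPred_eq, id, abs_of_neg hneg]
      refine and_congr ?_ (forall_congr' fun i => ?_)
      · rw [le_div_iff_of_neg hneg]; constructor <;> intro h <;> linarith
      · rw [div_mul_eq_mul_div, div_le_iff_of_neg hneg]; constructor <;> intro h <;> linarith
    · rw [← hT.measure_preimage (measurableSet_evB _ _).nullMeasurableSet]
      congr 1
      ext x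
      rw [mem_posHull_cons hr hνv hmv hinj hg]
      simp only [evB, mem_preimage, mem_ofPred_eq, abs_of_pos hposi]
      refine and_congr ?_ (forall_congr' fun i => ?_)
      · rw [le_div_iff₀ hposi, zero_mul]
      · rw [div_mul_eq_mul_div, div_le_iff₀ hposi, mul_comm ⟪ν, g⟫]

theorem ME_limit {n : ℕ} (hn : 0 < n) :
    ∃ L, 0 < L ∧ L ≠ ∞ ∧
      Tendsto (fun d : ℕ => (d : ℝ≥0∞) * 2 ^ d * ME (n + 1) d) atTop (𝓝 L) := by
  let j : Fin n := ⟨0, hn⟩
  have hmp := (measurePreserving_piFinSuccAbove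
    (α := fun _ : Fin (n + 1) => EuclideanSpace ℝ (Fin (n + 1))) (fun _ => sg (n + 1)) 0).symm
  have hc : ∀ p : EuclideanSpace ℝ (Fin (n + 1)) × (Fin n → EuclideanSpace ℝ (Fin (n + 1))),
      (MeasurableEquiv.piFinSuccAbove (fun _ : Fin (n + 1) => EuclideanSpace ℝ (Fin (n + 1)))
        0).symm p = Fin.cons p.1 p.2 := fun p => by
    simp [MeasurableEquiv.piFinSuccAbove_symm_apply, Fin.insertNthEquiv]
  have hmeas : ∀ d : ℕ, Measurable fun
      p : EuclideanSpace ℝ (Fin (n + 1)) × (Fin n → EuclideanSpace ℝ (Fin (n + 1))) =>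
      sg (n + 1) (posHull (Fin.cons p.1 p.2 : Fin (n + 1) → EuclideanSpace ℝ (Fin (n + 1)))) ^ d := by
    intro d
    have := (measurable_sg_posHull.pow_const d).comp hmp.measurable
    simpa only [Function.comp_def, hc] using this
  have hLI : ∀ᵐ v ∂(Measure.pi fun _ : Fin n => sg (n + 1)), LinearIndependent ℝ v := by
    have h1 := hmp.quasiMeasurePreserving.ae (ae_linearIndependent (n + 1))
    simp only [hc] at h1
    obtain ⟨g, hg⟩ := (Measure.ae_ae_of_ae_prod h1).exists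
    filter_upwards [hg] with v hv
    exact (linearIndependent_finCons.1 hv).1
  let F : ℕ → (Fin n → EuclideanSpace ℝ (Fin (n + 1))) → ℝ≥0∞ := fun d v =>
    (d : ℝ≥0∞) * 2 ^ d * ∫⁻ g, sg (n + 1)
      (posHull (Fin.cons g v : Fin (n + 1) → EuclideanSpace ℝ (Fin (n + 1)))) ^ d ∂sg (n + 1)
  have hF : ∀ d, Measurable (F d) := fun d => (hmeas d).lintegral_prod_left'.const_mul _
  have hb : ∀ d, F d ≤ᵐ[Measure.pi fun _ : Fin n => sg (n + 1)] fun _ => Kb := fun d => by
    filter_upwards [hLI] with v hv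
    obtain ⟨lam, hP, h1, _, h3⟩ := inner_reduction hv
    simp only [F, h3]
    exact core_bound lam j (h1 j) d
  have hl : ∀ᵐ v ∂(Measure.pi fun _ : Fin n => sg (n + 1)),
      ∃ l, 0 < l ∧ Tendsto (fun d => F d v) atTop (𝓝 l) := by
    filter_upwards [hLI] with v hv
    obtain ⟨lam, hP, h1, h2, h3⟩ := inner_reduction hv
    simp only [F, h3]
    exact core_limit lam j h1 h2
  obtain ⟨L, hL, hT⟩ := exists_tendsto_lintegral_pos (fun _ => Kb) hF hb
    (by simpa using Kb_ne_top) (hl.mono fun v ⟨l, _, h⟩ => ⟨l, h⟩) univ (by simp)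
    (hl.mono fun v h _ => h)
  have hEq : ∀ d, ∫⁻ v, F d v ∂(Measure.pi fun _ : Fin n => sg (n + 1)) =
      (d : ℝ≥0∞) * 2 ^ d * ME (n + 1) d := by
    intro d
    rw [lintegral_const_mul _ (hmeas d).lintegral_prod_left', ME,
      ← hmp.lintegral_comp (measurable_sg_posHull.pow_const d)]
    simp only [hc]
    rw [lintegral_prod_symm _ (hmeas d).aemeasurable]
  refine ⟨L, hL, ?_, hT.congr hEq⟩
  refine ne_top_of_le_ne_top Kb_ne_top (le_of_tendsto' hT fun d => ?_)
  simpa using lintegral_mono_ae (hb d)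

end Pool.Agent.P.MP_d3a052_pr
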