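import Mathlib

/-! Definitions for the moments of random solid angles. -/

open MeasureTheory

namespace Pool.Agent.P.MP_d3a052_pr

/-- The positive hull `pos(x_1, ..., x_n)` of `n` vectors of `ℝ^d`. -/
def posHull {d n : ℕ} (x : Fin n → EuclideanSpace ℝ (Fin d)) : Set (EuclideanSpace ℝ (Fin d)) :=
  {y | ∃ l : Fin n → ℝ, (∀ i, 0 ≤ l i) ∧ y = ∑ i, l i • x i}

/-- Surface measure on the unit sphere `S^{d-1}` of `ℝ^d`. -/
noncomputable def surf (d : ℕ) : Measure (Metric.sphere (0 : EuclideanSpace ℝ (Fin d)) 1) :=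
  (volume : Measure (EuclideanSpace ℝ (Fin d))).toSphere

/-- The normalised solid angle of a cone `C` in `ℝ^d`. -/
noncomputable def solidAngle {d : ℕ} (C : Set (EuclideanSpace ℝ (Fin d))) : ℝ :=
  (surf d).real {u | u.1 ∈ C} / (surf d).real Set.univ

/-- The uniform distribution on the unit sphere `S^{d-1}`. -/
noncomputable def unif (d : ℕ) : Measure (Metric.sphere (0 : EuclideanSpace ℝ (Fin d)) 1) :=
  (surf d Set.univ)⁻¹ • surf d

/-- `m(d,k)`: the `k`-th moment of the solid angle of the positive hull of `d` independent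
uniform unit vectors of `ℝ^d`. -/
noncomputable def moment (d k : ℕ) : ℝ :=
  ∫ U : Fin d → Metric.sphere (0 : EuclideanSpace ℝ (Fin d)) 1,
    solidAngle (posHull fun i => (U i).1) ^ k ∂(Measure.pi fun _ => unif d)

end Pool.Agent.P.MP_d3a052_pr
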