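import Mathlib

/-! One-dimensional Gaussian facts and a dominated convergence lemma with positive limit. -/

open MeasureTheory ProbabilityTheory Filter Topology Set
open scoped ENNReal NNReal

namespace Pool.Agent.P.MP_d3a052_pr

/-- Standard normal law on the line. -/
noncomputable abbrev g1 : Measure ℝ := gaussianReal 0 1

/-- Standard normal density. -/
noncomputable abbrev ph (x : ℝ) : ℝ := gaussianPDFReal 0 1 x

lemma ph_eq (x : ℝ) : ph x = (√(2 * Real.pi))⁻¹ * Real.exp (-x ^ 2 / 2) := by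
  simp [ph, gaussianPDFReal]

lemma ph_pos (x : ℝ) : 0 < ph x := gaussianPDFReal_pos _ _ _ one_ne_zero

lemma ph_anti {x y : ℝ} (h : x ^ 2 ≤ y ^ 2) : ph y ≤ ph x := by
  rw [ph_eq, ph_eq]
  gcongr

lemma continuous_ph : Continuous ph := by
  have : ph = fun x => (√(2 * Real.pi))⁻¹ * Real.exp (-x ^ 2 / 2) := funext ph_eq
  rw [this]; fun_prop

lemma ph_neg (x : ℝ) : ph (-x) = ph x := by simp [ph_eq]

lemma ph_abs (x : ℝ) : ph |x| = ph x := by simp [ph_eq]

lemma ph_zero_le_one : ph 0 ≤ 1 := by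
  rw [ph_eq]
  have h : (1 : ℝ) ≤ √(2 * Real.pi) := by
    rw [Real.one_le_sqrt]; nlinarith [Real.pi_gt_three]
  simpa using inv_le_one_of_one_le₀ h

lemma ph_le_one (x : ℝ) : ph x ≤ 1 :=
  (ph_anti (x := 0) (by nlinarith [sq_nonneg x])).trans ph_zero_le_one

lemma sq_mul_ph_le (x : ℝ) : x ^ 2 * ph x ≤ 2 := by
  rw [ph_eq]
  have h : (1 : ℝ) ≤ √(2 * Real.pi) := by
    rw [Real.one_le_sqrt]; nlinarith [Real.pi_gt_three]
  have h1 : (√(2 * Real.pi))⁻¹ ≤ 1 := inv_le_one_of_one_le₀ h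
  have h2 : x ^ 2 / 2 + 1 ≤ Real.exp (x ^ 2 / 2) := Real.add_one_le_exp _
  have h3 : Real.exp (-x ^ 2 / 2) * Real.exp (x ^ 2 / 2) = 1 := by
    rw [← Real.exp_add]; simp [neg_div]
  have h4 : 0 < Real.exp (-x ^ 2 / 2) := Real.exp_pos _
  have h5 : x ^ 2 * Real.exp (-x ^ 2 / 2) ≤ 2 := by nlinarith
  have h6 : 0 ≤ x ^ 2 * Real.exp (-x ^ 2 / 2) := by positivity
  calc x ^ 2 * ((√(2 * Real.pi))⁻¹ * Real.exp (-x ^ 2 / 2))
      = (√(2 * Real.pi))⁻¹ * (x ^ 2 * Real.exp (-x ^ 2 / 2)) := by ring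
    _ ≤ 1 * 2 := by gcongr
    _ = 2 := by ring

/-- Gaussian mass of `[0,a)`. -/
noncomputable def Hm (a : ℝ) : ℝ := g1.real (Ico 0 a)

lemma Hm_eq (a : ℝ) : Hm a = ∫ x in Ico 0 a, ph x := by
  rw [Hm, measureReal_def, gaussianReal_apply_eq_integral _ one_ne_zero, ENNReal.toReal_ofReal]
  exact integral_nonneg fun x => (ph_pos x).le

lemma Hm_nonneg (a : ℝ) : 0 ≤ Hm a := measureReal_nonneg

lemma Hm_le {a : ℝ} (ha : 0 ≤ a) : Hm a ≤ a * ph 0 := by
  rw [Hm_eq]
  calc ∫ x in Ico 0 a, ph x ≤ ∫ x in Ico 0 a, ph 0 := by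
        apply setIntegral_mono_on (integrable_gaussianPDFReal 0 1).integrableOn
          (by simp) measurableSet_Ico
        intro x _
        exact ph_anti (by nlinarith [sq_nonneg x])
    _ = a * ph 0 := by simp [ha]

lemma le_Hm {a : ℝ} (ha : 0 ≤ a) : a * ph a ≤ Hm a := by
  rw [Hm_eq]
  calc a * ph a = ∫ x in Ico 0 a, ph a := by simp [ha]
    _ ≤ ∫ x in Ico 0 a, ph x := by
        apply setIntegral_mono_on (by simp) (integrable_gaussianPDFReal 0 1).integrableOn
          measurableSet_Ico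
        intro x hx
        exact ph_anti (by nlinarith [hx.1, hx.2])

lemma Hm_mono : Monotone Hm := fun _ _ h =>
  measureReal_mono (Ico_subset_Ico_right h)

lemma measurable_Hm : Measurable Hm := Hm_mono.measurable

lemma g1_neg : g1.map (fun x => -x) = g1 := by
  simpa using gaussianReal_map_neg (μ := 0) (v := 1)

instance : NullSingletonClass g1 := nullSingletonClass_gaussianReal one_ne_zero

lemma g1_Ici_zero : g1.real (Ici 0) = 1 / 2 := by
  have h1 : g1.real (Iic 0) = g1.real (Ici 0) := by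
    conv_lhs => rw [← g1_neg]
    rw [measureReal_def, Measure.map_apply (by fun_prop) measurableSet_Iic]
    congr 2
    ext x; simp
  have h2 : g1.real (Iio 0) = g1.real (Iic 0) := measureReal_congr Iio_ae_eq_Iic
  have h3 : g1.real (Ici 0) + g1.real (Ici 0)ᶜ = 1 := by
    rw [measureReal_add_measureReal_compl measurableSet_Ici]; simp
  rw [compl_Ici] at h3
  linarith

lemma g1_Ici {a : ℝ} (ha : 0 ≤ a) : g1.real (Ici a) = 1 / 2 - Hm a := by
  have h : Ico 0 a ∪ Ici a = Ici 0 := Ico_union_Ici_eq_Ici ha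
  have hd : Disjoint (Ico 0 a) (Ici a) := by
    rw [Set.disjoint_left]; intro x hx hx'; exact absurd hx.2 (not_lt.2 hx')
  have := measureReal_union (μ := g1) hd measurableSet_Ici
  rw [h, g1_Ici_zero] at this
  unfold Hm; linarith

lemma Hm_le_half (a : ℝ) : Hm a ≤ 1 / 2 := by
  rw [← g1_Ici_zero]
  exact measureReal_mono Ico_subset_Ici_self

lemma tendsto_Hm {a : ℝ} (ha : 0 ≤ a) :
    Tendsto (fun d : ℕ => (d : ℝ) * Hm (a / d)) atTop (𝓝 (a * ph 0)) := by
  have h0 : Tendsto (fun d : ℕ => a / (d : ℝ)) atTop (𝓝 0) :=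
    tendsto_const_div_atTop_nhds_zero_nat a
  have h1 : Tendsto (fun d : ℕ => a * ph (a / d)) atTop (𝓝 (a * ph 0)) :=
    ((continuous_ph.tendsto 0).comp h0).const_mul a
  refine tendsto_of_tendsto_of_tendsto_of_le_of_le' h1 tendsto_const_nhds ?_ ?_
  · filter_upwards [eventually_gt_atTop 0] with d hd
    have hd' : (0 : ℝ) < d := by exact_mod_cast hd
    have := le_Hm (div_nonneg ha hd'.le)
    calc a * ph (a / d) = d * (a / d * ph (a / d)) := by field_simp
      _ ≤ d * Hm (a / d) := by gcongr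
  · filter_upwards [eventually_gt_atTop 0] with d hd
    have hd' : (0 : ℝ) < d := by exact_mod_cast hd
    have := Hm_le (div_nonneg ha hd'.le)
    calc d * Hm (a / d) ≤ d * (a / d * ph 0) := by gcongr
      _ = a * ph 0 := by field_simp

lemma g1_Iic_neg_one_pos : 0 < g1.real (Iic (-1)) := by
  rw [measureReal_def, ENNReal.toReal_pos_iff]
  refine ⟨?_, measure_lt_top _ _⟩
  rw [pos_iff_ne_zero]
  intro h
  have := gaussianReal_absolutelyContinuous' 0 (v := 1) one_ne_zero h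
  simp at this

/-- Dominated convergence with an almost everywhere existing limit that is positive on a set of
positive measure. -/
lemma exists_tendsto_lintegral_pos {α : Type*} [MeasurableSpace α] {μ : Measure α}
    {F : ℕ → α → ℝ≥0∞} (bound : α → ℝ≥0∞) (hF : ∀ n, Measurable (F n))
    (hb : ∀ n, F n ≤ᵐ[μ] bound) (hfin : ∫⁻ a, bound a ∂μ ≠ ∞)
    (hlim : ∀ᵐ a ∂μ, ∃ l, Tendsto (fun n => F n a) atTop (𝓝 l))
    (S : Set α) (hS : μ S ≠ 0)
    (hpos : ∀ᵐ a ∂μ, a ∈ S → ∃ l, 0 < l ∧ Tendsto (fun n => F n a) atTop (𝓝 l)) :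
    ∃ L, 0 < L ∧ Tendsto (fun n => ∫⁻ a, F n a ∂μ) atTop (𝓝 L) := by
  let f : α → ℝ≥0∞ := fun a => limsup (fun n => F n a) atTop
  have hf : Measurable f := Measurable.limsup hF
  have h1 : ∀ᵐ a ∂μ, Tendsto (fun n => F n a) atTop (𝓝 (f a)) := by
    filter_upwards [hlim] with a ⟨l, hl⟩
    simpa [f, hl.limsup_eq] using hl
  refine ⟨∫⁻ a, f a ∂μ, ?_, tendsto_lintegral_of_dominated_convergence bound hF hb hfin h1⟩
  rw [pos_iff_ne_zero]
  intro h0
  rw [lintegral_eq_zero_iff hf] at h0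
  apply hS
  have : ∀ᵐ a ∂μ, a ∉ S := by
    filter_upwards [h0, hpos] with a ha hp hs
    obtain ⟨l, hl, hl'⟩ := hp hs
    have : f a = l := hl'.limsup_eq
    rw [ha] at this
    simp [← this] at hl
  simpa [ae_iff] using this

end Pool.Agent.P.MP_d3a052_pr
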