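import Pool.Agent.P.MP_d3a052_pr.Gauss1

/-! Product measure lemmas, transposition, and almost sure invertibility. -/

open MeasureTheory ProbabilityTheory Filter Topology Set Matrix
open scoped ENNReal NNReal

namespace Pool.Agent.P.MP_d3a052_pr

theorem lintegral_pi_prod {n : ℕ} {E : Type*} [MeasurableSpace E] (μ : Fin n → Measure E)
    [∀ i, SigmaFinite (μ i)] (f : Fin n → E → ℝ≥0∞) (hf : ∀ i, Measurable (f i)) :
    ∫⁻ x : Fin n → E, ∏ i, f i (x i) ∂(Measure.pi μ) = ∏ i, ∫⁻ x, f i x ∂(μ i) := by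
  induction n with
  | zero => simp
  | succ n ih =>
      calc
        _ = ∫⁻ x : E × (Fin n → E), f 0 x.1 * ∏ i : Fin n, f (Fin.succ i) (x.2 i)
            ∂((μ 0).prod (Measure.pi (fun i ↦ μ i.succ))) := by
          rw [← ((measurePreserving_piFinSuccAbove (α := fun _ => E) μ 0).symm).lintegral_comp_emb
            (MeasurableEquiv.measurableEmbedding _)]
          simp_rw [MeasurableEquiv.piFinSuccAbove_symm_apply, Fin.insertNthEquiv,
            Fin.prod_univ_succ, Fin.insertNth_zero, Equiv.coe_fn_mk, Fin.cons_succ,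
            Fin.zero_succAbove, cast_eq, Fin.cons_zero]
        _ = (∫⁻ x, f 0 x ∂μ 0) * ∏ i : Fin n, ∫⁻ x, f (Fin.succ i) x ∂(μ i.succ) := by
          rw [← ih _ _ (fun i => hf _), ← lintegral_prod_mul (hf 0).aemeasurable]
          exact (Finset.measurable_prod _ fun i _ =>
            (hf _).comp (measurable_pi_apply i)).aemeasurable
        _ = ∏ i, ∫⁻ x, f i x ∂(μ i) := by rw [Fin.prod_univ_succ]

theorem pi_withDensity {n : ℕ} {E : Type*} [MeasurableSpace E] (μ : Measure E) [SigmaFinite μ]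
    (f : E → ℝ≥0∞) (hf : Measurable f) [SigmaFinite (μ.withDensity f)] :
    Measure.pi (fun _ : Fin n => μ.withDensity f) =
      (Measure.pi fun _ : Fin n => μ).withDensity (fun x => ∏ i, f (x i)) := by
  refine Measure.pi_eq fun s hs => ?_
  rw [withDensity_apply _ (MeasurableSet.univ_pi hs), Measure.restrict_pi_pi,
    lintegral_pi_prod _ (fun _ => f) (fun _ => hf)]
  exact Finset.prod_congr rfl fun i _ => (withDensity_apply _ (hs i)).symm

/-- Standard Gaussian measure on `ℝ^n` in coordinates. -/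
noncomputable abbrev gam (n : ℕ) : Measure (Fin n → ℝ) := Measure.pi fun _ => g1

/-- Its density. -/
noncomputable def phi {n : ℕ} (x : Fin n → ℝ) : ℝ≥0∞ := ∏ i, gaussianPDF 0 1 (x i)

lemma measurable_phi {n : ℕ} : Measurable (phi (n := n)) :=
  Finset.measurable_prod _ fun i _ => (measurable_gaussianPDF 0 1).comp (measurable_pi_apply i)

lemma gam_eq (n : ℕ) : gam n = volume.withDensity phi := by
  have h : g1 = volume.withDensity (gaussianPDF 0 1) := gaussianReal_of_var_ne_zero _ one_ne_zero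
  have : SigmaFinite (volume.withDensity (gaussianPDF 0 1)) := by rw [← h]; infer_instance
  rw [gam, h, pi_withDensity _ _ (measurable_gaussianPDF 0 1)]
  rfl

lemma phi_eq {n : ℕ} (x : Fin n → ℝ) :
    phi x = ENNReal.ofReal ((√(2 * Real.pi))⁻¹ ^ n * Real.exp (-(∑ i, x i ^ 2) / 2)) := by
  unfold phi gaussianPDF
  rw [← ENNReal.ofReal_prod_of_nonneg fun i _ => gaussianPDFReal_nonneg _ _ _]
  congr 1
  have : ∀ i, gaussianPDFReal 0 1 (x i) = (√(2 * Real.pi))⁻¹ * Real.exp (-x i ^ 2 / 2) :=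
    fun i => ph_eq (x i)
  simp_rw [this]
  rw [Finset.prod_mul_distrib, ← Real.exp_sum]
  simp [Finset.sum_div, neg_div]

lemma pi_gam_eq (a b : ℕ) : Measure.pi (fun _ : Fin a => gam b) =
    volume.withDensity (fun G : Fin a → Fin b → ℝ => ∏ i, phi (G i)) := by
  have : SigmaFinite (volume.withDensity (phi (n := b))) := by rw [← gam_eq]; infer_instance
  rw [gam_eq, pi_withDensity _ _ measurable_phi]
  rfl

/-- Transposition as a linear equivalence. -/
def trL (a b : ℕ) : (Fin a → Fin b → ℝ) ≃ₗ[ℝ] (Fin b → Fin a → ℝ) where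
  toFun X j i := X i j
  invFun X j i := X i j
  map_add' _ _ := rfl
  map_smul' _ _ := rfl
  left_inv _ := rfl
  right_inv _ := rfl

instance isAddHaar_arr (a b : ℕ) : (volume : Measure (Fin a → Fin b → ℝ)).IsAddHaarMeasure :=
  Measure.pi.isAddHaarMeasure _

lemma measurePreserving_tr (a b : ℕ) :
    MeasurePreserving (fun (X : Fin a → Fin b → ℝ) j i => X i j) volume volume := by
  have hm : Measurable (fun (X : Fin a → Fin b → ℝ) j i => X i j) := by fun_prop
  refine ⟨hm, ?_⟩
  have : (Measure.map (fun (X : Fin a → Fin b → ℝ) j i => X i j) volume).IsAddHaarMeasure :=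
    (trL a b).toContinuousLinearEquiv.isAddHaarMeasure_map volume
  have h := Measure.isAddLeftInvariant_eq_smul
    (Measure.map (fun (X : Fin a → Fin b → ℝ) j i => X i j) volume)
    (volume : Measure (Fin b → Fin a → ℝ))
  have h1 : ∀ a b : ℕ, (volume : Measure (Fin a → Fin b → ℝ))
      (univ.pi fun _ => univ.pi fun _ => Icc 0 1) = 1 := by
    intro a b
    simp only [volume_pi_pi, Real.volume_Icc]
    simp
  have h2 := congrArg (fun m : Measure (Fin b → Fin a → ℝ) =>
    m (univ.pi fun _ => univ.pi fun _ => Icc 0 1)) h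
  simp only [Measure.smul_apply, h1] at h2
  rw [Measure.map_apply hm (MeasurableSet.univ_pi fun _ => MeasurableSet.univ_pi fun _ =>
    measurableSet_Icc)] at h2
  have h3 : (fun (X : Fin a → Fin b → ℝ) j i => X i j) ⁻¹'
      (univ.pi fun _ => univ.pi fun _ => Icc 0 1) = univ.pi fun _ => univ.pi fun _ => Icc 0 1 := by
    ext X
    simp only [mem_preimage, mem_univ_pi]
    exact forall_comm
  rw [h3, h1] at h2
  rw [h]
  have h4 : Measure.addHaarScalarFactor
      (Measure.map (fun (X : Fin a → Fin b → ℝ) j i => X i j) volume)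
      (volume : Measure (Fin b → Fin a → ℝ)) = 1 := by
    rw [ENNReal.smul_def, smul_eq_mul, mul_one] at h2
    exact_mod_cast h2.symm
  rw [h4, one_smul]

lemma continuous_det_of {d : ℕ} : Continuous fun G : Fin d → Fin d → ℝ => (Matrix.of G).det :=
  Continuous.matrix_det (A := fun G : Fin d → Fin d → ℝ => Matrix.of G) continuous_id

lemma ae_det_ne_zero (d : ℕ) :
    ∀ᵐ G ∂(volume : Measure (Fin d → Fin d → ℝ)), (Matrix.of G).det ≠ 0 := by
  let I : Fin d → Fin d → ℝ := fun i j => (1 : Matrix (Fin d) (Fin d) ℝ) i j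
  have hc : Continuous fun p : (Fin d → Fin d → ℝ) × ℝ => (Matrix.of (p.2 • I + p.1)).det :=
    continuous_det_of.comp (by fun_prop)
  have hm : MeasurableSet {p : (Fin d → Fin d → ℝ) × ℝ | (Matrix.of (p.2 • I + p.1)).det ≠ 0} :=
    (isOpen_ne_fun hc continuous_const).measurableSet
  have h1 : ∀ G : Fin d → Fin d → ℝ, ∀ᵐ t ∂(volume : Measure ℝ),
      (Matrix.of (t • I + G)).det ≠ 0 := by
    intro G
    have hfin : {t : ℝ | (Matrix.of (t • I + G)).det = 0}.Finite := by
      have hne : (-(Matrix.of G)).charpoly ≠ 0 := (Matrix.charpoly_monic _).ne_zero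
      refine (Polynomial.finite_setOfPred_isRoot hne).subset fun t ht => ?_
      simp only [mem_ofPred_eq, Polynomial.IsRoot] at ht ⊢
      rw [Matrix.eval_charpoly, ← ht]
      congr 1
      ext i j
      simp [I, Matrix.one_apply, Matrix.diagonal_apply]
    simpa [ae_iff] using hfin.measure_zero _
  have h2 := (Measure.ae_ae_comm (μ := (volume : Measure (Fin d → Fin d → ℝ)))
    (ν := (volume : Measure ℝ)) (p := fun G t => (Matrix.of (t • I + G)).det ≠ 0) hm).1
    (.of_forall h1)
  obtain ⟨t, ht⟩ := h2.exists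
  have h3 := (measurePreserving_add_left (volume : Measure (Fin d → Fin d → ℝ))
    (-(t • I))).quasiMeasurePreserving.ae ht
  simpa using h3

lemma ae_det_ne_zero_gam (d : ℕ) :
    ∀ᵐ G ∂(Measure.pi fun _ : Fin d => gam d), (Matrix.of G).det ≠ 0 := by
  rw [pi_gam_eq]
  exact (withDensity_absolutelyContinuous _ _).ae_le (ae_det_ne_zero d)

/-- Left multiplication by a matrix as a linear map on arrays. -/
noncomputable def lmul {d : ℕ} (M : Matrix (Fin d) (Fin d) ℝ) :
    (Fin d → Fin d → ℝ) →ₗ[ℝ] (Fin d → Fin d → ℝ) :=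
  (trL d d).toLinearMap ∘ₗ (LinearMap.pi fun i => (Matrix.toLin' M).comp (LinearMap.proj i)) ∘ₗ
    (trL d d).symm.toLinearMap

lemma lmul_apply {d : ℕ} (M : Matrix (Fin d) (Fin d) ℝ) (G : Fin d → Fin d → ℝ) :
    Matrix.of (lmul M G) = M * Matrix.of G := by
  ext i j
  simp [lmul, trL, Matrix.mul_apply, Matrix.mulVec, dotProduct]

lemma det_lmul {d : ℕ} (M : Matrix (Fin d) (Fin d) ℝ) : LinearMap.det (lmul M) = M.det ^ d := by
  rw [lmul, LinearMap.det_conj, LinearMap.det_pi]
  simp

lemma lintegral_lmul {d : ℕ} {M : Matrix (Fin d) (Fin d) ℝ} (hM : M.det ≠ 0)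
    {f : (Fin d → Fin d → ℝ) → ℝ≥0∞} (hf : Measurable f) :
    ∫⁻ G, f (lmul M G) = ENNReal.ofReal (|M.det|⁻¹ ^ d) * ∫⁻ G, f G := by
  have h := Measure.map_linearMap_addHaar_eq_smul_addHaar
    (volume : Measure (Fin d → Fin d → ℝ)) (f := lmul M) (by rw [det_lmul]; exact pow_ne_zero _ hM)
  rw [← lintegral_map hf (lmul M).continuous_of_finiteDimensional.measurable, h,
    lintegral_smul_measure, det_lmul, smul_eq_mul, abs_inv, abs_pow, inv_pow]

end Pool.Agent.P.MP_d3a052_pr
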