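import Pool.Agent.P.MP_d3a052_pr.Asym

/-! From uniform unit vectors to Gaussian vectors. -/

open MeasureTheory ProbabilityTheory Filter Topology Set Module
open scoped ENNReal NNReal

namespace Pool.Agent.P.MP_d3a052_pr

/-- Radial profile of the Gaussian density. -/
noncomputable def prof (d : ℕ) (r : ℝ) : ℝ≥0∞ :=
  ENNReal.ofReal ((√(2 * Real.pi))⁻¹ ^ d * Real.exp (-(r ^ 2) / 2))

lemma measurable_prof (d : ℕ) : Measurable (prof d) := by
  unfold prof
  exact (Continuous.measurable (by fun_prop)).ennreal_ofReal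

lemma sg_apply {d : ℕ} {A : Set (EuclideanSpace ℝ (Fin d))} (hA : MeasurableSet A) :
    sg d A = ∫⁻ x, A.indicator (fun x => prof d ‖x‖) x := by
  have hm : Measurable fun x : EuclideanSpace ℝ (Fin d) => prof d ‖x‖ :=
    (measurable_prof d).comp measurable_norm
  have hA' : MeasurableSet (MeasurableEquiv.toLp 2 (Fin d → ℝ) ⁻¹' A) :=
    (MeasurableEquiv.toLp 2 (Fin d → ℝ)).measurable hA
  rw [← (mp_toLp d).measure_preimage hA.nullMeasurableSet, gam_eq, withDensity_apply _ hA',
    ← (PiLp.volume_preserving_toLp (Fin d)).lintegral_comp (hm.indicator hA),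
    ← lintegral_indicator hA']
  refine lintegral_congr fun y => ?_
  by_cases hy : WithLp.toLp 2 y ∈ A
  · rw [indicator_of_mem hy, indicator_of_mem (by simpa using hy), phi_eq, prof,
      EuclideanSpace.real_norm_sq_eq]
  · rw [indicator_of_notMem hy, indicator_of_notMem (by simpa using hy)]

/-- Radial projection. -/
noncomputable def nrm {d : ℕ} (x : EuclideanSpace ℝ (Fin d)) : EuclideanSpace ℝ (Fin d) :=
  ‖x‖⁻¹ • x

lemma measurable_nrm {d : ℕ} : Measurable (nrm (d := d)) := by
  unfold nrm; fun_prop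

lemma sg_nrm_preimage {d : ℕ} (hd : 0 < d) {A : Set (EuclideanSpace ℝ (Fin d))}
    (hA : MeasurableSet A) :
    sg d (nrm ⁻¹' A) = surf d (Subtype.val ⁻¹' A) *
      ∫⁻ r : Ioi (0 : ℝ), prof d r ∂(Measure.volumeIoiPow (d - 1)) := by
  have : Nonempty (Fin d) := ⟨⟨0, hd⟩⟩
  have hp := (volume : Measure (EuclideanSpace ℝ (Fin d))).measurePreserving_homeomorphUnitSphereProd
  rw [finrank_euclideanSpace, Fintype.card_fin] at hp
  have hs : MeasurableSet (Subtype.val ⁻¹' A :
      Set (Metric.sphere (0 : EuclideanSpace ℝ (Fin d)) 1)) := measurable_subtype_coe hA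
  have hf1 : Measurable ((Subtype.val ⁻¹' A :
      Set (Metric.sphere (0 : EuclideanSpace ℝ (Fin d)) 1)).indicator
        (1 : Metric.sphere (0 : EuclideanSpace ℝ (Fin d)) 1 → ℝ≥0∞)) :=
    measurable_one.indicator hs
  have hf2 : Measurable fun r : Ioi (0 : ℝ) => prof d r :=
    (measurable_prof d).comp measurable_subtype_coe
  have hf3 : Measurable fun z : Metric.sphere (0 : EuclideanSpace ℝ (Fin d)) 1 × Ioi (0 : ℝ) =>
      (Subtype.val ⁻¹' A).indicator 1 z.1 * prof d z.2 :=
    (hf1.comp measurable_fst).mul (hf2.comp measurable_snd)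
  rw [sg_apply (measurable_nrm hA), ← restrict_compl_singleton (μ := volume) 0,
    ← lintegral_subtype_comap (measurableSet_singleton _).compl, surf,
    ← lintegral_indicator_one hs, ← lintegral_prod_mul hf1.aemeasurable hf2.aemeasurable,
    ← hp.lintegral_comp hf3]
  refine lintegral_congr fun x => ?_
  have h1 : ((homeomorphUnitSphereProd (EuclideanSpace ℝ (Fin d)) x).1 :
      EuclideanSpace ℝ (Fin d)) = nrm x.1 := by simp [nrm]
  have h2 : ((homeomorphUnitSphereProd (EuclideanSpace ℝ (Fin d)) x).2 : ℝ) = ‖x.1‖ := by simp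
  by_cases hx : nrm x.1 ∈ A
  · rw [indicator_of_mem (show x.1 ∈ nrm ⁻¹' A from hx)]
    rw [h2, indicator_of_mem (by rw [mem_preimage, h1]; exact hx)]
    simp
  · rw [indicator_of_notMem (show x.1 ∉ nrm ⁻¹' A from hx)]
    rw [h2, indicator_of_notMem (by rw [mem_preimage, h1]; exact hx)]
    simp

lemma map_nrm {d : ℕ} (hd : 0 < d) : (sg d).map nrm = (unif d).map Subtype.val := by
  have h0 := sg_nrm_preimage hd MeasurableSet.univ
  simp only [preimage_univ, measure_univ] at h0
  have h1 := ENNReal.eq_inv_of_mul_eq_one_left (by rw [mul_comm]; exact h0.symm)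
  ext A hA
  rw [Measure.map_apply measurable_nrm hA, Measure.map_apply measurable_subtype_coe hA,
    sg_nrm_preimage hd hA, h1, unif, Measure.smul_apply, smul_eq_mul, mul_comm]

lemma isProb_unif {d : ℕ} (hd : 0 < d) : IsProbabilityMeasure (unif d) := by
  constructor
  have h := congrArg (fun m : Measure (EuclideanSpace ℝ (Fin d)) => m univ) (map_nrm hd)
  simp only [Measure.map_apply measurable_nrm MeasurableSet.univ,
    Measure.map_apply measurable_subtype_coe MeasurableSet.univ, preimage_univ, measure_univ] at h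
  exact h.symm

lemma smul_mem_posHull {d n : ℕ} {U : Fin n → EuclideanSpace ℝ (Fin d)}
    {x : EuclideanSpace ℝ (Fin d)} {c : ℝ} (hc : 0 ≤ c) (hx : x ∈ posHull U) :
    c • x ∈ posHull U := by
  obtain ⟨l, hl, rfl⟩ := hx
  exact ⟨fun i => c * l i, fun i => mul_nonneg hc (hl i), by
    rw [Finset.smul_sum]; simp [mul_smul]⟩

lemma norm_smul_nrm {d : ℕ} (x : EuclideanSpace ℝ (Fin d)) : ‖x‖ • nrm x = x := by
  by_cases h : x = 0
  · simp [h]
  · rw [nrm, smul_smul, mul_inv_cancel₀ (norm_ne_zero_iff.2 h), one_smul]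

lemma nrm_preimage_posHull {d n : ℕ} (U : Fin n → EuclideanSpace ℝ (Fin d)) :
    nrm ⁻¹' posHull U = posHull U := by
  ext x
  constructor
  · intro h
    have := smul_mem_posHull (norm_nonneg x) h
    rwa [norm_smul_nrm] at this
  · intro h
    exact smul_mem_posHull (inv_nonneg.2 (norm_nonneg x)) h

lemma posHull_nrm {d n : ℕ} (U : Fin n → EuclideanSpace ℝ (Fin d)) :
    posHull (fun i => nrm (U i)) = posHull U := by
  ext x
  constructor
  · rintro ⟨l, hl, rfl⟩
    exact ⟨fun i => l i * ‖U i‖⁻¹, fun i => mul_nonneg (hl i) (inv_nonneg.2 (norm_nonneg _)), by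
      simp [nrm, mul_smul]⟩
  · rintro ⟨l, hl, rfl⟩
    exact ⟨fun i => l i * ‖U i‖, fun i => mul_nonneg (hl i) (norm_nonneg _), by
      simp [mul_smul, norm_smul_nrm]⟩

lemma solidAngle_posHull {d n : ℕ} (hd : 0 < d) (U : Fin n → EuclideanSpace ℝ (Fin d)) :
    solidAngle (posHull U) = (sg d (posHull U)).toReal := by
  have h := congrArg (fun m : Measure (EuclideanSpace ℝ (Fin d)) => m (posHull U)) (map_nrm hd)
  simp only [Measure.map_apply measurable_nrm (measurableSet_posHull U),
    Measure.map_apply measurable_subtype_coe (measurableSet_posHull U), nrm_preimage_posHull] at h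
  rw [h, unif, Measure.smul_apply, smul_eq_mul, ENNReal.toReal_mul, ENNReal.toReal_inv, solidAngle,
    div_eq_inv_mul]
  rfl

theorem moment_eq {d : ℕ} (hd : 0 < d) (k : ℕ) : moment d k = (ME d k).toReal := by
  have := isProb_unif hd
  have : IsProbabilityMeasure ((sg d).map nrm) :=
    Measure.isProbabilityMeasure_map measurable_nrm.aemeasurable
  have h1 := measurePreserving_pi (fun _ : Fin d => unif d) (fun _ : Fin d => (sg d).map nrm)
    (f := fun _ => Subtype.val) (fun _ => ⟨measurable_subtype_coe, (map_nrm hd).symm⟩)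
  have h2 := measurePreserving_pi (fun _ : Fin d => sg d) (fun _ : Fin d => (sg d).map nrm)
    (f := fun _ => nrm) (fun _ => ⟨measurable_nrm, rfl⟩)
  have hm := (measurable_sg_posHull (d := d) (n := d)).pow_const k
  have h3 : ∫⁻ U, sg d (posHull fun i => (U i).1) ^ k ∂(Measure.pi fun _ : Fin d => unif d) =
      ME d k := by
    rw [h1.lintegral_comp hm, ← h2.lintegral_comp hm, ME]
    simp_rw [posHull_nrm]
  have hm' : Measurable fun U : Fin d → Metric.sphere (0 : EuclideanSpace ℝ (Fin d)) 1 =>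
      sg d (posHull fun i => (U i).1) ^ k := hm.comp h1.measurable
  rw [← h3, moment, ← integral_toReal hm'.aemeasurable
    (.of_forall fun U => ENNReal.pow_lt_top (measure_lt_top _ _))]
  refine integral_congr_ae (.of_forall fun U => ?_)
  simp only [solidAngle_posHull hd, ENNReal.toReal_pow]

theorem moment_limit {k : ℕ} (hk : 2 ≤ k) :
    ∃ c : ℝ, 0 < c ∧ Tendsto (fun d : ℕ => (2 : ℝ) ^ d * d * moment d k) atTop (𝓝 c) := by
  obtain ⟨n, rfl⟩ : ∃ n, k = n + 1 := ⟨k - 1, by omega⟩
  obtain ⟨L, hL, hL', hT⟩ := ME_limit (n := n) (by omega)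
  refine ⟨L.toReal, ENNReal.toReal_pos hL.ne' hL', ((ENNReal.tendsto_toReal hL').comp hT).congr' ?_⟩
  filter_upwards [eventually_gt_atTop 0] with d hd
  rw [moment_eq hd, ME_symm d]
  simp [mul_comm]

end Pool.Agent.P.MP_d3a052_pr
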